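import Pool.Agent.U389.FX.Gen

set_option autoImplicit false
set_option linter.unusedSectionVars false

/-!
Approximate covers by random rounding, and exact covers of all bridgeless graphs.
-/

namespace Pool.Agent.U389.FX

open Finset
open scoped Classical
open Pool.Agent.U389.FR
open Pool.Agent.H126R2.CDC (MGraph IsFl isFl_iff exists_flow8 exists_double_cover T3)
open Pool.Agent.H126R2.NC (TC)
open Pool.Agent.W831.ECC (dev exists_rounding)

variable {V E : Type} [Fintype V] [DecidableEq V] [Fintype E] [DecidableEq E]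

/-- real indicator vector -/
noncomputable def rv (Z : E → ZMod 2) : E → ℝ := fun e => if Z e = 1 then 1 else 0

lemma hull (G : MGraph V E) (hG : G.Bridgeless) {v : E × Bool → V}
    (hv : ∀ e, G.ends e = s(v (e, false), v (e, true))) :
    (fun _ => 2 / 3 : E → ℝ) ∈ convexHull ℝ (rv '' {Z : E → ZMod 2 | IsFl v Z}) := by
  obtain ⟨m, hm, Z0, hZ0, hZc⟩ := frac_even G hG hv
  have hmR : (0 : ℝ) < m := by exact_mod_cast hm
  have h1 : (fun _ => 2 / 3 : E → ℝ) = ∑ i, (1 / (3 * m) : ℝ) • rv (Z0 i) := by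
    funext e
    rw [Finset.sum_apply]
    simp only [Pi.smul_apply, smul_eq_mul, rv]
    rw [← Finset.mul_sum, ← Finset.sum_filter, Finset.sum_const, hZc e, nsmul_eq_mul]
    push_cast
    field_simp
  rw [h1]
  refine (convex_convexHull ℝ _).sum_mem (fun _ _ => by positivity) ?_ ?_
  · rw [Finset.sum_const, Finset.card_univ, Fintype.card_fin, nsmul_eq_mul]
    push_cast
    field_simp
  · intro i _
    exact subset_convexHull ℝ _ ⟨Z0 i, (mem_Sp_iff v _).1 (hZ0 i), rfl⟩

lemma cara (G : MGraph V E) (hG : G.Bridgeless) {v : E × Bool → V}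
    (hv : ∀ e, G.ends e = s(v (e, false), v (e, true))) :
    ∃ (ι : Type) (_ : Fintype ι) (Y : ι → E → ZMod 2) (w : ι → ℝ),
      Fintype.card ι ≤ Fintype.card E + 1 ∧ (∀ i, IsFl v (Y i)) ∧ (∀ i, 0 ≤ w i) ∧ ∑ i, w i = 1 ∧
        ∀ e, ∑ i, (if Y i e = 1 then w i else 0) = 2 / 3 := by
  obtain ⟨ι, hι, z, w, hz, haff, hw0, hw1, hw2⟩ :=
    eq_pos_convex_span_of_mem_convexHull (hull G hG hv)
  have h1 : ∀ i, ∃ Y : E → ZMod 2, IsFl v Y ∧ rv Y = z i := fun i => hz ⟨i, rfl⟩
  choose Y hY1 hY2 using h1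
  refine ⟨ι, hι, Y, w, ?_, hY1, fun i => (hw0 i).le, hw1, ?_⟩
  · have h2 := haff.card_le_finrank_succ
    have h3 := Submodule.finrank_le (vectorSpan ℝ (Set.range z))
    rw [Module.finrank_fintype_fun_eq_card] at h3
    omega
  · intro e
    have h2 := congrFun hw2 e
    rw [Finset.sum_apply] at h2
    rw [← h2]
    refine Finset.sum_congr rfl fun i _ => ?_
    rw [← hY2 i]
    simp [rv]

lemma approx (G : MGraph V E) (hG : G.Bridgeless) {v : E × Bool → V}
    (hv : ∀ e, G.ends e = s(v (e, false), v (e, true))) (x : ℝ) (hx : 0 ≤ x) (Q : ℝ)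
    (hQ1 : min x (Fintype.card E + 1) ≤ Q) (hQ2 : Real.log (2 * (Fintype.card E + 1)) ≤ Q) :
    ∃ (n : ℕ) (p : E → ℕ), CW v n p ∧
      |(n : ℝ) - x| ≤ 2 * Real.sqrt (Q * Real.log (2 * (Fintype.card E + 1))) ∧
      ∀ e, |(p e : ℝ) - 2 / 3 * x| ≤ 2 * Real.sqrt (Q * Real.log (2 * (Fintype.card E + 1))) := by
  obtain ⟨ι, hι, Y, w, hcard, hY, hw0, hw1, hw2⟩ := cara G hG hv
  set θ : ι → ℝ := fun i => x * w i - ⌊x * w i⌋₊ with hθ
  have hxw : ∀ i, 0 ≤ x * w i := fun i => mul_nonneg hx (hw0 i)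
  have hθ0 : ∀ i, 0 ≤ θ i := fun i => by
    have := Nat.floor_le (hxw i)
    simp only [hθ]
    linarith
  have hθ1 : ∀ i, θ i ≤ 1 := fun i => by
    have := Nat.lt_floor_add_one (x * w i)
    simp only [hθ]
    linarith
  have hθx : ∀ i, θ i ≤ x * w i := fun i => by
    have : (0 : ℝ) ≤ ⌊x * w i⌋₊ := Nat.cast_nonneg _
    simp only [hθ]
    linarith
  have hsum : ∑ i, θ i ≤ Q := by
    refine le_trans (le_min ?_ ?_) hQ1
    · calc ∑ i, θ i ≤ ∑ i, x * w i := Finset.sum_le_sum fun i _ => hθx i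
        _ = x := by rw [← Finset.mul_sum, hw1, mul_one]
    · calc ∑ i, θ i ≤ ∑ _i : ι, (1 : ℝ) := Finset.sum_le_sum fun i _ => hθ1 i
        _ = Fintype.card ι := by simp
        _ ≤ Fintype.card E + 1 := by exact_mod_cast hcard
  let inc : Option E → ι → Prop := fun o i => ∀ e, o = some e → Y i e = 1
  have hone : (Fintype.card (Option E) : ℝ) = Fintype.card E + 1 := by
    rw [Fintype.card_option]
    push_cast
    rfl
  obtain ⟨ε, hε1, hε2⟩ := exists_rounding inc θ hθ0 hθ1 univ Q (fun o => by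
      refine le_trans (Finset.sum_le_sum fun i _ => ?_) hsum
      split_ifs
      · exact le_rfl
      · exact hθ0 i) (by rw [Fintype.card_option]; omega) (by rw [hone]; exact hQ2)
  rw [hone] at hε2
  refine ⟨∑ i, (⌊x * w i⌋₊ + ε i), fun e => ∑ i, (if Y i e = 1 then (⌊x * w i⌋₊ + ε i) else 0),
    ⟨(i : ι) × Fin (⌊x * w i⌋₊ + ε i), inferInstance, fun j => Y j.1, ?_, fun j => hY _, ?_⟩, ?_, ?_⟩
  · simp [Fintype.card_sigma]
  · intro e
    rw [Finset.card_filter, Fintype.sum_sigma]
    refine Finset.sum_congr rfl fun i _ => ?_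
    by_cases h : Y i e = 1 <;> simp [h]
  · have h1 := hε2 none
    have h2 : dev inc θ ε univ none = (∑ i, (⌊x * w i⌋₊ + ε i) : ℕ) - x := by
      unfold dev
      have h3 : ∀ i ∈ (univ : Finset ι), (if inc none i then ((ε i : ℝ) - θ i) else 0) =
          ((⌊x * w i⌋₊ + ε i : ℕ) : ℝ) - x * w i := by
        intro i _
        rw [if_pos (fun e he => by cases he)]
        simp only [hθ]
        push_cast
        ring
      rw [Finset.sum_congr rfl h3, Finset.sum_sub_distrib, ← Finset.mul_sum, hw1, mul_one]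
      push_cast
      rfl
    rwa [h2] at h1
  · intro e
    have h1 := hε2 (some e)
    have h2 : dev inc θ ε univ (some e) =
        (∑ i, (if Y i e = 1 then (⌊x * w i⌋₊ + ε i) else 0) : ℕ) - 2 / 3 * x := by
      unfold dev
      have h3 : ∀ i ∈ (univ : Finset ι), (if inc (some e) i then ((ε i : ℝ) - θ i) else 0) =
          ((if Y i e = 1 then (⌊x * w i⌋₊ + ε i) else 0 : ℕ) : ℝ) -
            x * (if Y i e = 1 then w i else 0) := by
        intro i _
        have h4 : inc (some e) i ↔ Y i e = 1 := by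
          constructor
          · intro h
            exact h e rfl
          · intro h f hf
            cases hf
            exact h
        by_cases h5 : Y i e = 1
        · rw [if_pos (h4.2 h5), if_pos h5, if_pos h5]
          simp only [hθ]
          push_cast
          ring
        · rw [if_neg (fun h => h5 (h4.1 h)), if_neg h5, if_neg h5]
          simp
      rw [Finset.sum_congr rfl h3, Finset.sum_sub_distrib, ← Finset.mul_sum, hw2]
      push_cast
      ring
    rwa [h2] at h1

/-- coefficients of the seven flows -/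
def cf (i : Fin 7) (j : Fin 3) : ZMod 2 := if (i.val + 1).testBit j.val then 1 else 0

lemma cf_card : ∀ x y z : ZMod 2, (x ≠ 0 ∨ y ≠ 0 ∨ z ≠ 0) →
    (univ.filter fun i : Fin 7 => cf i 0 * x + cf i 1 * y + cf i 2 * z = 1).card = 4 := by
  decide

/-- four-fold cover by seven even subgraphs -/
lemma cw_seven (G : MGraph V E) (hG : G.Bridgeless) {v : E × Bool → V}
    (hv : ∀ e, G.ends e = s(v (e, false), v (e, true))) : CW v 7 (fun _ => 4) := by
  obtain ⟨A, hnz, hA⟩ := exists_flow8 _ (fun e => v (e, false)) (fun e => v (e, true)) rfl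
    (G.no_one_cut hG v hv)
  refine ⟨Fin 7, inferInstance, fun i e => cf i 0 * A 0 e + cf i 1 * A 1 e + cf i 2 * A 2 e,
    Fintype.card_fin 7, ?_, ?_⟩
  · intro i w
    have h0 := (isFl_iff v (A 0)).2 (hA 0) w
    have h1 := (isFl_iff v (A 1)).2 (hA 1) w
    have h2 := (isFl_iff v (A 2)).2 (hA 2) w
    have h3 : ∀ h : E × Bool, (if v h = w then
        cf i 0 * A 0 h.1 + cf i 1 * A 1 h.1 + cf i 2 * A 2 h.1 else 0) =
        cf i 0 * (if v h = w then A 0 h.1 else 0) + cf i 1 * (if v h = w then A 1 h.1 else 0) +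
        cf i 2 * (if v h = w then A 2 h.1 else 0) := by
      intro h
      split_ifs <;> simp
    rw [Finset.sum_congr rfl fun h _ => h3 h, Finset.sum_add_distrib, Finset.sum_add_distrib,
      ← Finset.mul_sum, ← Finset.mul_sum, ← Finset.mul_sum, h0, h1, h2]
    simp
  · intro e
    convert cf_card (A 0 e) (A 1 e) (A 2 e) (hnz e) using 2

/-- double cover by eight even subgraphs -/
lemma cw_eight (G : MGraph V E) (hG : G.Bridgeless) {v : E × Bool → V}
    (hv : ∀ e, G.ends e = s(v (e, false), v (e, true))) : CW v 8 (fun _ => 2) := by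
  have := cw_minus (v := v) ∅ (by simpa using G.no_one_cut hG v hv)
  simpa using this

/-- covers with ratio `7 / 2` -/
lemma cw_small (G : MGraph V E) (hG : G.Bridgeless) {v : E × Bool → V}
    (hv : ∀ e, G.ends e = s(v (e, false), v (e, true))) (s n : ℕ) (hn : 7 * s + 9 ≤ 2 * n) :
    CW v n (fun _ => 2 * s) := by
  rcases Nat.even_or_odd' s with ⟨t, ht | ht⟩
  · have h1 := (cw_seven G hG hv).smul t
    have h2 := h1.mono (n' := n) (by omega)
    rwa [show t * 4 = 2 * s by omega] at h2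
  · have h1 := ((cw_seven G hG hv).smul t).add (cw_eight G hG hv)
    have h2 := h1.mono (n' := n) (by omega)
    rwa [show t * 4 + 2 = 2 * s by omega] at h2

lemma log_le (y : ℝ) (hy : 1 ≤ y) : Real.log (2 * y) ≤ y := by
  have h1 := Real.log_le_sub_one_of_pos (x := y) (by linarith)
  have h2 : Real.log (2 * y) = Real.log 2 + Real.log y :=
    Real.log_mul (by norm_num) (by linarith)
  have h3 : Real.log 2 ≤ 1 := by
    have := Real.log_le_sub_one_of_pos (x := 2) (by norm_num)
    linarith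
  linarith

/-- **All bridgeless graphs.** -/
theorem cw_gen (G : MGraph V E) (hG : G.Bridgeless) {v : E × Bool → V}
    (hv : ∀ e, G.ends e = s(v (e, false), v (e, true))) (s n : ℕ)
    (hn : (3 * s : ℝ) + 95 * Real.sqrt (min (3 * (s : ℝ)) (Fintype.card E + 1) *
      Real.log (2 * (Fintype.card E + 1))) + 24 ≤ n) : CW v n (fun _ => 2 * s) := by
  set m : ℝ := Fintype.card E + 1 with hm
  have hm1 : 1 ≤ m := by
    have : (0 : ℝ) ≤ Fintype.card E := Nat.cast_nonneg _
    linarith
  set ℓ : ℝ := Real.log (2 * m) with hℓ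
  set Q : ℝ := min (3 * s) m with hQ
  set δ : ℝ := 2 * Real.sqrt (Q * ℓ) with hδ
  have hδ0 : 0 ≤ δ := by positivity
  have hn' : (3 * s : ℝ) + 95 / 2 * δ + 24 ≤ n := by
    rw [hδ]
    linarith
  have hs0 : (0 : ℝ) ≤ s := Nat.cast_nonneg _
  have hℓm : ℓ ≤ m := log_le m hm1
  have hℓ0 : 0 < ℓ := Real.log_pos (by linarith)
  by_cases hA : (3 * s : ℝ) < 51 / 2 * δ + 27 / 2
  · apply cw_small G hG hv
    have h1 : ((7 * s + 9 : ℕ) : ℝ) ≤ ((2 * n : ℕ) : ℝ) := by
      push_cast
      linarith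
    exact_mod_cast h1
  push Not at hA
  have hQℓ : ℓ ≤ Q := by
    by_contra hcon
    push Not at hcon
    have h1 : Q = 3 * s := by
      rcases min_choice (3 * s : ℝ) m with h | h
      · rw [hQ, h]
      · rw [hQ, h] at hcon
        linarith
    have h2 : 3 * s ≤ Real.sqrt (Q * ℓ) := by
      apply Real.le_sqrt_of_sq_le
      rw [h1] at hcon ⊢
      nlinarith
    rw [hδ] at hA
    nlinarith
  set x : ℝ := 3 * s - 51 / 2 * δ - 27 / 2 with hx
  obtain ⟨n1, p, hp, hn1, hpe⟩ := approx G hG hv x (by linarith) Q (by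
    refine le_min ?_ ?_
    · exact (min_le_left _ _).trans (by linarith)
    · exact min_le_right _ _) hQℓ
  rw [← hm, ← hℓ, ← hδ] at hn1 hpe
  have hp' := hp.parity
  set p' : E → ℕ := fun e => p e + p e % 2 with hp'd
  have hev : ∀ e, ∃ r, p' e = 2 * r := fun e => by
    refine ⟨p' e / 2, ?_⟩
    simp only [hp'd]
    omega
  have hle : ∀ e, (p e : ℝ) ≤ p' e ∧ (p' e : ℝ) ≤ p e + 1 := fun e => by
    have h1 : p e ≤ p' e ∧ p' e ≤ p e + 1 := by
      simp only [hp'd]
      omega
    exact ⟨by exact_mod_cast h1.1, by exact_mod_cast h1.2⟩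
  choose r hr using hev
  set M := ⌊9 * δ + 9 / 2⌋₊ with hM
  set T := ⌊δ + 1 / 2⌋₊ with hT
  have hMr : (M : ℝ) ≤ 9 * δ + 9 / 2 := Nat.floor_le (by linarith)
  have hTr : (T : ℝ) ≤ δ + 1 / 2 := Nat.floor_le (by linarith)
  have h9 : 9 * T ≤ M := by
    apply Nat.le_floor
    push_cast
    linarith
  have hrs : ∀ e, (r e : ℝ) + (8 * δ + 4) ≤ s ∧ (s : ℝ) ≤ r e + (9 * δ + 9 / 2) := fun e => by
    have h1 := hpe e
    rw [abs_le] at h1
    have h2 := hle e
    have h3 : (p' e : ℝ) = 2 * r e := by exact_mod_cast hr e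
    constructor
    · linarith
    · linarith
  have hrs' : ∀ e, r e ≤ s := fun e => by
    have h1 := (hrs e).1
    have : (r e : ℝ) ≤ s := by linarith
    exact_mod_cast this
  have hnear := cw_near G hG hv (fun e => s - r e) M T h9 (fun e => by
      apply Nat.le_floor
      rw [Nat.cast_sub (hrs' e)]
      linarith [(hrs e).2]) (fun e => by
      have h1 : M - (s - r e) ≤ T := by
        apply Nat.le_floor
        by_cases h2 : s - r e ≤ M
        · rw [Nat.cast_sub h2, Nat.cast_sub (hrs' e)]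
          linarith [(hrs e).1]
        · rw [Nat.sub_eq_zero_of_le (by omega)]
          push_cast
          linarith
      omega) (fun e f hef => by
      have h1 := hp'.tc hef
      rw [hr, hr] at h1
      have : r e = r f := by omega
      rw [this])
  have hall := (hp'.add hnear).mono (n' := n) (by
    have h1 : ((n1 + 1 + 8 * M : ℕ) : ℝ) ≤ n := by
      push_cast
      rw [abs_le] at hn1
      linarith [hn1.2]
    exact_mod_cast h1)
  convert hall using 1
  funext e
  rw [hr e]
  have := hrs' e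
  omega

end Pool.Agent.U389.FX
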