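import Pool.Agent.U389.FX.Cov
import Pool.Agent.U389.FX.Approx

set_option autoImplicit false
set_option linter.unusedSectionVars false

/-!
`2 s`-covers by `3 s + 2 ^ (4 k + 1)` even subgraphs, for treewidth `k`, and the final form.
-/

namespace Pool.Agent.U389.FX

open Finset
open scoped Classical
open Pool.Agent.U389.FR
open Pool.Agent.H126R2.CDC (MGraph IsFl isFl_iff)

variable {V E : Type} [Fintype V] [DecidableEq V] [Fintype E] [DecidableEq E]

lemma cw_tw (G : MGraph V E) (hG : G.Bridgeless) {v : E × Bool → V}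
    (hv : ∀ e, G.ends e = s(v (e, false), v (e, true))) {k : ℕ} (hk : 1 ≤ k) {N : Type} [Fintype N]
    (D : TreeDec G k N) (s n : ℕ) (hn : 3 * s + 2 ^ (4 * k + 1) ≤ n) : CW v n (fun _ => 2 * s) := by
  have hp : 2 ^ (4 * k + 1) = 2 * 2 ^ (4 * k) := by rw [pow_succ]; ring
  have hp2 : 2 ^ (4 * k + 2) = 4 * 2 ^ (4 * k) := by rw [pow_add]; ring
  have hp3 : 16 ≤ 2 ^ (4 * k) := by
    calc 16 = 2 ^ 4 := by norm_num
      _ ≤ 2 ^ (4 * k) := Nat.pow_le_pow_right (by norm_num) (by omega)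
  by_cases hs : 2 ^ (4 * k + 1) ≤ s
  · obtain ⟨C, hC1, hC2⟩ := cover_tw G hG hk D (3 * s + 2 ^ (4 * k + 1)) (2 * s)
      (even_two_mul s) (by omega) (by omega)
    have h1 : CW v (3 * s + 2 ^ (4 * k + 1)) (fun _ => 2 * s) := by
      refine ⟨Fin (3 * s + 2 ^ (4 * k + 1)), inferInstance, fun i => vec (C i), Fintype.card_fin _,
        fun i => (mem_Sp_iff v _).1 (vec_mem G hv (hC1 i)), ?_⟩
      intro e
      refine Eq.trans ?_ (hC2 e)
      congr 1
      ext i
      simp [vec]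
    exact h1.mono hn
  · exact cw_small G hG hv s n (by omega)

lemma CW.fin (G : MGraph V E) {v : E × Bool → V}
    (hv : ∀ e, G.ends e = s(v (e, false), v (e, true))) {n : ℕ} {p : E → ℕ} (h : CW v n p) :
    ∃ C : Fin n → Finset E, (∀ i, G.IsEven (C i)) ∧
      ∀ e, (univ.filter fun i => e ∈ C i).card = p e := by
  obtain ⟨ι, _, Z, h1, h2, h3⟩ := h
  let q : Fin n ≃ ι := (finCongr h1.symm).trans (Fintype.equivFin ι).symm
  refine ⟨fun i => univ.filter fun e => Z (q i) e = 1,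
    fun i => even_of_mem G hv ((mem_Sp_iff v _).2 (h2 _)), ?_⟩
  intro e
  rw [← h3 e]
  refine Finset.card_bij (fun i _ => q i) ?_ (fun i _ j _ h => q.injective h) ?_
  · intro i hi
    simpa using hi
  · intro j hj
    refine ⟨q.symm j, ?_, by simp⟩
    simpa using hj

/-- **Bounded treewidth.** -/
theorem cover_tw_all (G : MGraph V E) (hG : G.Bridgeless) {k : ℕ} (hk : 1 ≤ k) {N : Type}
    [Fintype N] (D : TreeDec G k N) (s n : ℕ) (hn : 3 * s + 2 ^ (4 * k + 1) ≤ n) :
    ∃ C : Fin n → Finset E, (∀ i, G.IsEven (C i)) ∧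
      ∀ e, (univ.filter fun i => e ∈ C i).card = 2 * s := by
  obtain ⟨v, hv⟩ := G.exists_halves
  exact (cw_tw G hG hv hk D s n hn).fin G hv

/-- **All bridgeless graphs.** -/
theorem cover_gen_all (G : MGraph V E) (hG : G.Bridgeless) (s n : ℕ)
    (hn : (3 * s : ℝ) + 95 * Real.sqrt (min (3 * (s : ℝ)) (Fintype.card E + 1) *
      Real.log (2 * (Fintype.card E + 1))) + 24 ≤ n) :
    ∃ C : Fin n → Finset E, (∀ i, G.IsEven (C i)) ∧
      ∀ e, (univ.filter fun i => e ∈ C i).card = 2 * s := by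
  obtain ⟨v, hv⟩ := G.exists_halves
  exact (cw_gen G hG hv s n hn).fin G hv

end Pool.Agent.U389.FX
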