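import Pool.Agent.U389.FX.FracEven

set_option autoImplicit false
set_option linter.unusedSectionVars false

/-!
Covers by even subgraphs with exact multiplicities, for bounded treewidth.
-/

namespace Pool.Agent.U389.FX

open Finset
open scoped Classical
open Pool.Agent.U389.FR
open Pool.Agent.H126R2.CDC (MGraph IsFl isFl_iff)
open Pool.Agent.H126R2.NC (InIntCone TC countP_eq_sum)
open Pool.Agent.W831.ECC (cover_tc)

variable {V E : Type} [Fintype V] [DecidableEq V] [Fintype E] [DecidableEq E]

lemma zero_mem_Sp (v : E × Bool → V) : (0 : E → ZMod 2) ∈ Sp (bdf v univ) := by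
  rw [mem_Sp_iff]
  intro w
  simp

lemma card_Sp (v : E × Bool → V) : Nat.card (Sp (bdf v univ)) =
    (univ.filter fun Z : E → ZMod 2 => Z ∈ Sp (bdf v univ)).card := by
  rw [Nat.card_eq_fintype_card, Fintype.card_ofFinset
    (univ.filter fun Z : E → ZMod 2 => Z ∈ Sp (bdf v univ)) (by simp)]

/-- an integral combination of even subgraphs with the given total and constant marginals -/
lemma int_comb (G : MGraph V E) (hG : G.Bridgeless) {v : E × Bool → V}
    (hv : ∀ e, G.ends e = s(v (e, false), v (e, true))) (n c : ℕ) (hc : Even c) :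
    ∃ a : (E → ZMod 2) → ℤ, (∀ Z, a Z ≠ 0 → Z ∈ Sp (bdf v univ)) ∧ ∑ Z, a Z = n ∧
      ∀ e, ∑ Z, (if Z e = 1 then a Z else 0) = c := by
  obtain ⟨F, hF, hFc⟩ := cover_tc G (fun _ => c) (fun _ => hc) (fun _ _ => by omega) hG v hv
    (fun _ _ _ => rfl)
  refine ⟨fun Z => (∑ C : Finset E, (if vec C = Z then (F.count C : ℤ) else 0)) +
    (if Z = 0 then (n : ℤ) - Multiset.card F else 0), ?_, ?_, ?_⟩
  · intro Z hZ
    by_cases h0 : Z = 0
    · rw [h0]
      exact zero_mem_Sp v
    · beta_reduce at hZ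
      rw [if_neg h0, add_zero] at hZ
      obtain ⟨C, -, hC⟩ := Finset.exists_ne_zero_of_sum_ne_zero hZ
      by_cases h1 : vec C = Z
      · rw [if_pos h1] at hC
        have h2 : C ∈ F := by
          rw [← Multiset.count_pos]
          have : F.count C ≠ 0 := fun h => hC (by rw [h]; rfl)
          omega
        rw [← h1]
        exact vec_mem G hv (hF C h2).isEven
      · rw [if_neg h1] at hC
        exact absurd rfl hC
  · rw [Finset.sum_add_distrib, Finset.sum_comm, Finset.sum_ite_eq' Finset.univ (0 : E → ZMod 2),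
      if_pos (Finset.mem_univ _)]
    have h1 : ∑ C : Finset E, ∑ Z : E → ZMod 2, (if vec C = Z then (F.count C : ℤ) else 0) =
        Multiset.card F := by
      have h2 : ∀ C : Finset E, ∑ Z : E → ZMod 2, (if vec C = Z then (F.count C : ℤ) else 0) =
          F.count C := by
        intro C
        rw [Finset.sum_ite_eq]
        simp
      rw [Finset.sum_congr rfl fun C _ => h2 C]
      have h3 := Multiset.sum_count_eq_card (s := (univ : Finset (Finset E))) (m := F)
        (fun C _ => Finset.mem_univ C)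
      rw [← h3]
      push_cast
      rfl
    rw [h1]
    ring
  · intro e
    have h1 : ∀ Z : E → ZMod 2, (if Z e = 1 then
        (∑ C : Finset E, (if vec C = Z then (F.count C : ℤ) else 0)) +
        (if Z = 0 then (n : ℤ) - Multiset.card F else 0) else 0) =
        ∑ C : Finset E, (if vec C = Z then (F.count C : ℤ) * (if e ∈ C then 1 else 0) else 0) := by
      intro Z
      by_cases hZ : Z e = 1
      · have h0 : Z ≠ 0 := by
          rintro rfl
          simp at hZ
        rw [if_pos hZ, if_neg h0, add_zero]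
        refine Finset.sum_congr rfl fun C _ => ?_
        by_cases h2 : vec C = Z
        · have h3 : e ∈ C := by
            by_contra h4
            rw [← h2] at hZ
            simp [vec, h4] at hZ
          rw [if_pos h2, if_pos h2, if_pos h3, mul_one]
        · rw [if_neg h2, if_neg h2]
      · rw [if_neg hZ]
        symm
        refine Finset.sum_eq_zero fun C _ => ?_
        by_cases h2 : vec C = Z
        · have h3 : e ∉ C := by
            intro h4
            apply hZ
            rw [← h2]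
            simp [vec, h4]
          rw [if_pos h2, if_neg h3, mul_zero]
        · rw [if_neg h2]
    rw [Finset.sum_congr rfl fun Z _ => h1 Z, Finset.sum_comm]
    have h2 : ∀ C : Finset E, ∑ Z : E → ZMod 2,
        (if vec C = Z then (F.count C : ℤ) * (if e ∈ C then 1 else 0) else 0) =
        (F.count C : ℤ) * (if e ∈ C then 1 else 0) := by
      intro C
      rw [Finset.sum_ite_eq]
      simp
    rw [Finset.sum_congr rfl fun C _ => h2 C]
    have h3 : F.countP (fun C => e ∈ C) = c := hFc e
    rw [countP_eq_sum] at h3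
    rw [← h3]
    push_cast
    rfl

/-- **Covers with exact multiplicities.** -/
theorem cover_tw (G : MGraph V E) (hG : G.Bridgeless) {k : ℕ} (hk : 1 ≤ k) {N : Type} [Fintype N]
    (D : TreeDec G k N) (n c : ℕ) (hc : Even c) (hn : n ≤ 2 * c)
    (hnc : 3 * c + 2 ^ (4 * k + 2) ≤ 2 * n) :
    ∃ C : Fin n → Finset E, (∀ i, G.IsEven (C i)) ∧
      ∀ e, (univ.filter fun i => e ∈ C i).card = c := by
  obtain ⟨v, hv⟩ : ∃ v : E × Bool → V, ∀ e, G.ends e = s(v (e, false), v (e, true)) := by
    have h1 : ∀ e, ∃ q : V × V, G.ends e = s(q.1, q.2) := by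
      intro e
      induction G.ends e using Sym2.ind with
      | _ a b => exact ⟨(a, b), rfl⟩
    choose q hq using h1
    exact ⟨fun h => if h.2 then (q h.1).2 else (q h.1).1, fun e => by simp [hq e]⟩
  obtain ⟨m, hm, Z0, hZ0, hZc⟩ := frac_even G hG hv
  obtain ⟨a, ha1, ha2, ha3⟩ := int_comb G hG hv n c hc
  set M0 : ℝ := 4 * n - 6 * c with hM0
  have hncR : (3 : ℝ) * c + 2 ^ (4 * k + 2) ≤ 2 * n := by exact_mod_cast hnc
  have hnR : (n : ℝ) ≤ 2 * c := by exact_mod_cast hn
  have hM1 : (2 : ℝ) ^ (4 * k + 3) ≤ M0 := by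
    rw [hM0, show 4 * k + 3 = (4 * k + 2) + 1 by ring, pow_succ]
    linarith
  have hM2 : M0 ≤ n := by
    rw [hM0]
    linarith
  have hmR : (0 : ℝ) < m := by exact_mod_cast hm
  have hM3 : 0 ≤ M0 := le_trans (by positivity) hM1
  have hSp0 : (0 : ℝ) < Nat.card (Sp (bdf v univ)) := by
    have : Nonempty (Sp (bdf v univ)) := ⟨⟨0, zero_mem_Sp v⟩⟩
    exact_mod_cast Nat.card_pos
  set μ : ℝ := (n - M0) / (3 * m) with hμ
  have hμ0 : 0 ≤ μ := div_nonneg (by linarith) (by positivity)
  set lam : (E → ZMod 2) → ℝ := fun Z => μ * (∑ i, if Z0 i = Z then 1 else 0) +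
    (if Z ∈ Sp (bdf v univ) then M0 / Nat.card (Sp (bdf v univ)) else 0) with hlam
  have hs0 : ∀ Z, (0 : ℝ) ≤ ∑ i, (if Z0 i = Z then (1 : ℝ) else 0) := fun Z =>
    Finset.sum_nonneg fun i _ => by split_ifs <;> norm_num
  have g1 : ∀ Z, 0 ≤ lam Z := by
    intro Z
    refine add_nonneg (mul_nonneg hμ0 (hs0 Z)) ?_
    split_ifs
    · positivity
    · exact le_rfl
  have g2 : ∀ Z, lam Z ≠ 0 → Z ∈ Sp (bdf v univ) := by
    intro Z hZ
    by_contra hcon
    apply hZ
    rw [hlam]
    simp only
    rw [if_neg hcon, add_zero]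
    have : ∑ i, (if Z0 i = Z then (1 : ℝ) else 0) = 0 := by
      refine Finset.sum_eq_zero fun i _ => if_neg ?_
      rintro rfl
      exact hcon (hZ0 i)
    rw [this, mul_zero]
  have g3 : ∀ Z ∈ Sp (bdf v univ), (2 : ℝ) ^ (4 * k + 3) / Nat.card (Sp (bdf v univ)) ≤ lam Z := by
    intro Z hZ
    rw [hlam]
    simp only
    rw [if_pos hZ]
    have h1 : (2 : ℝ) ^ (4 * k + 3) / Nat.card (Sp (bdf v univ)) ≤
        M0 / Nat.card (Sp (bdf v univ)) := div_le_div_of_nonneg_right hM1 hSp0.le
    have h2 := mul_nonneg hμ0 (hs0 Z)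
    linarith
  have g4 : ∑ Z, lam Z = ((∑ Z, a Z : ℤ) : ℝ) := by
    rw [ha2, hlam]
    simp only [Finset.sum_add_distrib, ← Finset.mul_sum]
    rw [Finset.sum_comm]
    simp only [Finset.sum_ite_eq, Finset.mem_univ, if_true, Finset.sum_const, Finset.card_univ,
      Fintype.card_fin, nsmul_eq_mul]
    rw [← Finset.sum_filter, Finset.sum_const, ← card_Sp, nsmul_eq_mul, hμ]
    push_cast
    field_simp
    ring
  have g5 : ∀ e, ∑ Z, (if Z e = 1 then lam Z else 0) =
      ((∑ Z, (if Z e = 1 then a Z else 0) : ℤ) : ℝ) := by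
    intro e
    rw [ha3 e]
    obtain ⟨C0, hC0, heC0⟩ := hG e
    have h3 := half_card (vec_mem G hv hC0.isEven) (e := e) (by simp [vec, heC0])
    have h1 : ∀ Z : E → ZMod 2, (if Z e = 1 then lam Z else 0) =
        μ * (∑ i, (if Z0 i = Z then (if Z0 i e = 1 then (1 : ℝ) else 0) else 0)) +
        (if Z ∈ Sp (bdf v univ) ∧ Z e = 1 then M0 / Nat.card (Sp (bdf v univ)) else 0) := by
      intro Z
      rw [hlam]
      simp only
      by_cases hZ : Z e = 1
      · rw [if_pos hZ]
        congr 1
        · congr 1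
          refine Finset.sum_congr rfl fun i _ => ?_
          by_cases h4 : Z0 i = Z
          · rw [if_pos h4, if_pos h4, h4, if_pos hZ]
          · rw [if_neg h4, if_neg h4]
        · simp [hZ]
      · rw [if_neg hZ, if_neg (fun h => hZ h.2), add_zero]
        symm
        rw [Finset.sum_eq_zero, mul_zero]
        intro i _
        by_cases h4 : Z0 i = Z
        · rw [if_pos h4, h4, if_neg hZ]
        · rw [if_neg h4]
    rw [Finset.sum_congr rfl fun Z _ => h1 Z, Finset.sum_add_distrib, ← Finset.mul_sum,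
      Finset.sum_comm]
    simp only [Finset.sum_ite_eq, Finset.mem_univ, if_true]
    have h4 : ∑ i, (if Z0 i e = 1 then (1 : ℝ) else 0) = 2 * m := by
      rw [← Finset.sum_filter, Finset.sum_const, hZc e, nsmul_eq_mul]
      push_cast
      ring
    rw [h4, ← Finset.sum_filter, Finset.sum_const, nsmul_eq_mul]
    generalize ((univ.filter fun Z => Z ∈ Sp (bdf v univ) ∧ Z e = 1).card : ℝ) = q at h3 ⊢
    rw [← h3] at hSp0 ⊢
    have h5 : q ≠ 0 := by
      rintro rfl
      simp at hSp0
    rw [hμ]
    field_simp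
    rw [hM0]
    push_cast
    ring
  obtain ⟨ι, hι, τ, hτ1, hτ2, hτ3⟩ := exact_rounding G hv hk D lam a g1 g2 ha1 g3 g4 g5
  have hcard : Fintype.card ι = n := by
    rw [ha2] at hτ2
    exact_mod_cast hτ2
  let q : Fin n ≃ ι := (finCongr hcard.symm).trans (Fintype.equivFin ι).symm
  refine ⟨fun i => univ.filter fun e => τ (q i) e = 1, fun i => even_of_mem G hv (hτ1 _), ?_⟩
  intro e
  have h1 := hτ3 e
  rw [ha3 e] at h1
  have h2 : cnt (fun j => τ j e = 1) = c := by exact_mod_cast h1
  rw [← h2]
  unfold cnt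
  refine Finset.card_bij (fun i _ => q i) ?_ (fun i _ j _ h => q.injective h) ?_
  · intro i hi
    simpa using hi
  · intro j hj
    refine ⟨q.symm j, ?_, by simp⟩
    simpa using hj

end Pool.Agent.U389.FX
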