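import Pool.Agent.U389.FR.Main

set_option autoImplicit false
set_option linter.unusedSectionVars false

/-!
Rounding a measure on the cycle space with exact marginals.
-/

namespace Pool.Agent.U389.FX

open Finset
open scoped Classical
open Pool.Agent.U389.FR
open Pool.Agent.H126R2.CDC (MGraph IsFl isFl_iff)

variable {V E : Type} [Fintype V] [DecidableEq V] [Fintype E] [DecidableEq E]

/-- the rounded measure with the marginals of `a` -/
noncomputable def ne (lam : (E → ZMod 2) → ℝ) (a : (E → ZMod 2) → ℤ) (m : ℕ)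
    (Z : E → ZMod 2) : ℝ := a Z + nn (fun Z => lam Z - a Z) 0 m Z

lemma ne_supp (lam : (E → ZMod 2) → ℝ) (a : (E → ZMod 2) → ℤ) (m : ℕ) (c : E → ZMod 2)
    (hl : ∀ Z, lam Z ≠ 0 → ip c Z = 0) (ha : ∀ Z, a Z ≠ 0 → ip c Z = 0) (Z : E → ZMod 2)
    (hZ : ip c Z ≠ 0) : ne lam a m Z = 0 := by
  have h1 : a Z = 0 := by
    by_contra h
    exact hZ (ha Z h)
  have h2 := nn_supp (fun Z => lam Z - a Z) 0 m c (by
    intro Z' h
    by_cases h3 : lam Z' = 0
    · by_cases h4 : a Z' = 0
      · exact absurd (by simp [h3, h4]) h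
      · exact ha Z' h4
    · exact hl Z' h3) Z hZ
  simp only [ne, h1, h2]
  simp

lemma ne_loc (lam : (E → ZMod 2) → ℝ) (a : (E → ZMod 2) → ℤ) (m : ℕ)
    (P : (E → ZMod 2) → Prop) [DecidablePred P] :
    ∑ Z, (if P Z then ne lam a m Z else 0) = ((∑ Z, (if P Z then a Z else 0) : ℤ) : ℝ) +
      ∑ Z, (if P Z then nn (fun Z => lam Z - a Z) 0 m Z else 0) := by
  push_cast
  rw [← Finset.sum_add_distrib]
  refine Finset.sum_congr rfl fun Z _ => ?_
  by_cases h : P Z <;> simp [h, ne]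

variable {I : Type*} [Fintype I] [DecidableEq I]

lemma ne_int (lam : (E → ZMod 2) → ℝ) (a : (E → ZMod 2) → ℤ) (m : ℕ) (F : I → E → ZMod 2)
    (hI : Fintype.card I ≤ m) (b : I → ZMod 2) :
    ∃ z : ℤ, ∑ Z, (if (∀ i, ip (F i) Z = b i) then ne lam a m Z else 0) = z := by
  obtain ⟨z, hz⟩ := loc_int (fun Z => lam Z - a Z) 0 m F hI b
  refine ⟨∑ Z, (if (∀ i, ip (F i) Z = b i) then a Z else 0) + z, ?_⟩
  rw [ne_loc, hz]
  push_cast
  rfl

lemma ne_close (lam : (E → ZMod 2) → ℝ) (a : (E → ZMod 2) → ℤ) (m : ℕ) (F : I → E → ZMod 2)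
    (b : I → ZMod 2) :
    |∑ Z, (if (∀ i, ip (F i) Z = b i) then ne lam a m Z else 0) -
      ∑ Z, (if (∀ i, ip (F i) Z = b i) then lam Z else 0)| ≤ 2 ^ m / 2 := by
  have h1 := loc_close (fun Z => lam Z - a Z) 0 m F b
  have h2 : ∑ Z, (if (∀ i, ip (F i) Z = b i) then (lam Z - a Z) else 0) =
      ∑ Z, (if (∀ i, ip (F i) Z = b i) then lam Z else 0) -
        ((∑ Z, (if (∀ i, ip (F i) Z = b i) then a Z else 0) : ℤ) : ℝ) := by
    push_cast
    rw [← Finset.sum_sub_distrib]
    refine Finset.sum_congr rfl fun Z _ => ?_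
    by_cases h : (∀ i, ip (F i) Z = b i) <;> simp [h]
  rw [h2] at h1
  rw [ne_loc]
  convert h1 using 2
  ring

/-- Mass of a local event of the measure to be rounded. -/
lemma mass_ge {J : Type*} (c : J → E → ZMod 2) (lam : (E → ZMod 2) → ℝ) (m : ℕ) (κ : ℝ)
    (hlam : ∀ Z, 0 ≤ lam Z) (hκ : (2 : ℝ) ^ m * 2 ^ m / 2 ≤ κ)
    (huni : ∀ Z ∈ Sp c, κ / Nat.card (Sp c) ≤ lam Z)
    (F : I → E → ZMod 2) (hI : Fintype.card I ≤ m) (a : I → ZMod 2)
    (hex : ∃ Z0 ∈ Sp c, ∀ i, ip (F i) Z0 = a i) :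
    (2 : ℝ) ^ m / 2 ≤ ∑ Z, (if (∀ i, ip (F i) Z = a i) then lam Z else 0) := by
  obtain ⟨Z0, hZ0, ha⟩ := hex
  set S : Finset (E → ZMod 2) := Finset.univ.filter (fun Z => Z ∈ Sp c) with hS
  set Fa : Finset (E → ZMod 2) := S.filter (fun Z => ∀ i, ip (F i) Z = a i) with hFa
  have hcS : Nat.card (Sp c) = S.card := by
    rw [Nat.card_eq_fintype_card, Fintype.card_ofFinset S]
  have hmem : ∀ Z, Z ∈ S ↔ Z ∈ Sp c := by
    intro Z
    simp [hS]
  have hSpos : 0 < S.card := Finset.card_pos.mpr ⟨Z0, by simp [hS, hZ0]⟩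
  have h3 : S.card ≤ 2 ^ Fintype.card I * Fa.card := by
    have h4 : S.card ≤ Fa.card * (Finset.univ : Finset (I → ZMod 2)).card := by
      refine Finset.card_le_mul_card_image_of_maps_to
        (f := fun Z => fun i => ip (F i) Z) (fun Z _ => Finset.mem_univ _) _ ?_
      intro b _
      by_cases hb : (S.filter (fun Z => (fun i => ip (F i) Z) = b)).Nonempty
      · obtain ⟨Z1, hZ1⟩ := hb
        rw [Finset.mem_filter] at hZ1
        refine Finset.card_le_card_of_injOn (fun Z => Z + (Z1 + Z0)) ?_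
          (fun x _ y _ h => by simpa using h)
        intro Z hZ
        rw [Finset.mem_coe, Finset.mem_filter] at hZ
        rw [Finset.mem_coe, hFa, Finset.mem_filter]
        constructor
        · rw [hmem]
          intro j
          have e1 := (hmem _).mp hZ.1 j
          have e2 := (hmem _).mp hZ1.1 j
          have e3 := hZ0 j
          rw [ip_add_right, ip_add_right, e1, e2, e3, add_zero, add_zero]
        · intro i
          have e1 := congrFun hZ.2 i
          have e2 := congrFun hZ1.2 i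
          change ip (F i) Z = b i at e1
          change ip (F i) Z1 = b i at e2
          rw [ip_add_right, ip_add_right, e1, e2, ha i, ← add_assoc,
            CharTwo.add_self_eq_zero, zero_add]
      · rw [Finset.not_nonempty_iff_eq_empty.mp hb]
        simp
    rw [Finset.card_univ, Fintype.card_fun, ZMod.card] at h4
    linarith
  have h5 : (S.card : ℝ) ≤ 2 ^ m * Fa.card := by
    have : S.card ≤ 2 ^ m * Fa.card :=
      h3.trans (Nat.mul_le_mul_right _ (Nat.pow_le_pow_right (by norm_num) hI))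
    exact_mod_cast this
  have h6 : κ / S.card * Fa.card ≤
      ∑ Z, (if (∀ i, ip (F i) Z = a i) then lam Z else 0) := by
    calc κ / S.card * Fa.card = ∑ Z ∈ Fa, κ / S.card := by
          rw [Finset.sum_const, nsmul_eq_mul]; ring
      _ ≤ ∑ Z ∈ Fa, (if (∀ i, ip (F i) Z = a i) then lam Z else 0) := by
          refine Finset.sum_le_sum fun Z hZ => ?_
          rw [hFa, Finset.mem_filter] at hZ
          rw [if_pos hZ.2, ← hcS]
          exact huni Z ((hmem Z).mp hZ.1)
      _ ≤ _ := by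
          refine Finset.sum_le_sum_of_subset_of_nonneg (Finset.subset_univ _) ?_
          intro Z _ _
          split_ifs
          · exact hlam Z
          · exact le_rfl
  refine le_trans ?_ h6
  have hSp : (0 : ℝ) < S.card := by exact_mod_cast hSpos
  have hm : (0 : ℝ) < 2 ^ m := by positivity
  rw [div_mul_eq_mul_div, le_div_iff₀ hSp]
  calc (2 : ℝ) ^ m / 2 * S.card ≤ 2 ^ m / 2 * (2 ^ m * Fa.card) := by
        exact mul_le_mul_of_nonneg_left h5 (by positivity)
    _ = (2 ^ m * 2 ^ m / 2) * Fa.card := by ring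
    _ ≤ κ * Fa.card := mul_le_mul_of_nonneg_right hκ (by positivity)

/-- the rounded measure is nice -/
lemma nice {v : E × Bool → V} (lam : (E → ZMod 2) → ℝ) (a : (E → ZMod 2) → ℤ) (m : ℕ) (κ : ℝ)
    (hlam : ∀ Z, 0 ≤ lam Z) (hl : ∀ Z, lam Z ≠ 0 → Z ∈ Sp (bdf v univ))
    (ha : ∀ Z, a Z ≠ 0 → Z ∈ Sp (bdf v univ)) (hκ : (2 : ℝ) ^ m * 2 ^ m / 2 ≤ κ)
    (huni : ∀ Z ∈ Sp (bdf v univ), κ / Nat.card (Sp (bdf v univ)) ≤ lam Z) :
    Nice v (ne lam a m) m := by
  have hs : ∀ Z, ne lam a m Z ≠ 0 → Z ∈ Sp (bdf v univ) := by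
    intro Z hZ u
    by_contra h
    exact hZ (ne_supp lam a m (bdf v univ u) (fun Z' h' => hl Z' h' u)
      (fun Z' h' => ha Z' h' u) Z h)
  refine ⟨hs, ?_⟩
  intro I _ _ F b hI
  obtain ⟨z, hz⟩ := ne_int lam a m F hI b
  suffices h : (0 : ℝ) ≤ z by
    have h0 : 0 ≤ z := by exact_mod_cast h
    refine ⟨z.toNat, ?_⟩
    have h1 : ((z.toNat : ℤ) : ℝ) = z := by rw [Int.toNat_of_nonneg h0]
    have h2 : ms (ne lam a m) (fun Z => ∀ i, ip (F i) Z = b i) = z := by
      rw [← hz]
      unfold ms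
      refine Finset.sum_congr rfl fun Z _ => ?_
      by_cases h : ∀ i, ip (F i) Z = b i
      · rw [if_pos h, if_pos h]
      · rw [if_neg h, if_neg h]
    rw [h2]
    exact_mod_cast h1.symm
  rw [← hz]
  by_cases hex : ∃ Z0 ∈ Sp (bdf v univ), ∀ i, ip (F i) Z0 = b i
  · have h1 := ne_close lam a m F b
    have h2 := mass_ge (bdf v univ) lam m κ hlam hκ huni F hI b hex
    have h7 := (abs_le.mp h1).1
    linarith
  · refine le_of_eq (Eq.symm ?_)
    refine Finset.sum_eq_zero fun Z _ => ?_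
    by_cases h : ∀ i, ip (F i) Z = b i
    · rw [if_pos h]
      by_contra h3
      exact hex ⟨Z, hs Z h3, h⟩
    · rw [if_neg h]

/-- the marginals are exact -/
lemma ne_marg (lam : (E → ZMod 2) → ℝ) (a : (E → ZMod 2) → ℤ) (m : ℕ)
    (D : E → ZMod 2) (hD : ft lam D = ft (fun Z => (a Z : ℝ)) D) :
    ft (ne lam a m) D = ft (fun Z => (a Z : ℝ)) D := by
  have h1 : ft (ne lam a m) D = ft (fun Z => (a Z : ℝ)) D +
      ft (nn (fun Z => lam Z - a Z) 0 m) D := by
    simp only [ft, ne]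
    rw [← Finset.sum_add_distrib]
    refine Finset.sum_congr rfl fun Z _ => ?_
    ring
  have h2 : ft (fun Z => lam Z - a Z) D = 0 := by
    simp only [ft] at hD ⊢
    simp only [sub_mul, Finset.sum_sub_distrib]
    rw [hD, sub_self]
  rw [h1, ft_nn, h2]
  simp [rd]

lemma sgn_eq (b : ZMod 2) : sgn b = 1 - 2 * (if b = 1 then 1 else 0) := by
  rcases z2_cases b with rfl | rfl
  · simp [sgn]
  · simp [sgn]
    norm_num

lemma ft_single (μ : (E → ZMod 2) → ℝ) (e : E) :
    ft μ (Pi.single e 1) = ∑ Z, μ Z - 2 * ∑ Z, (if Z e = 1 then μ Z else 0) := by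
  simp only [ft, ip_single, sgn_eq]
  rw [Finset.mul_sum, ← Finset.sum_sub_distrib]
  refine Finset.sum_congr rfl fun Z _ => ?_
  split_ifs <;> ring

lemma ft_zero (μ : (E → ZMod 2) → ℝ) : ft μ 0 = ∑ Z, μ Z := by
  simp only [ft]
  refine Finset.sum_congr rfl fun Z _ => ?_
  have : ip (0 : E → ZMod 2) Z = 0 := by simp [ip]
  rw [this]
  simp [sgn]

/-- **Exact rounding theorem**: a nonnegative measure on the cycle space of a graph of treewidth at
most `k`, which is at least a multiple of the uniform measure, and which has the same total mass and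
the same marginals as an integral combination of elements of the cycle space, is replaced by a
family of elements of the cycle space with the same mass and marginals. -/
theorem exact_rounding (G : MGraph V E) {v : E × Bool → V}
    (hv : ∀ e, G.ends e = s(v (e, false), v (e, true))) {k : ℕ} (hk : 1 ≤ k) {N : Type}
    [Fintype N] (D : TreeDec G k N) (lam : (E → ZMod 2) → ℝ) (a : (E → ZMod 2) → ℤ)
    (hlam : ∀ Z, 0 ≤ lam Z) (hl : ∀ Z, lam Z ≠ 0 → Z ∈ Sp (bdf v univ))
    (ha : ∀ Z, a Z ≠ 0 → Z ∈ Sp (bdf v univ))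
    (huni : ∀ Z ∈ Sp (bdf v univ), (2 : ℝ) ^ (4 * k + 3) / Nat.card (Sp (bdf v univ)) ≤ lam Z)
    (hmass : ∑ Z, lam Z = ((∑ Z, a Z : ℤ) : ℝ))
    (hmarg : ∀ e, ∑ Z, (if Z e = 1 then lam Z else 0) =
      ((∑ Z, (if Z e = 1 then a Z else 0) : ℤ) : ℝ)) :
    ∃ (ι : Type) (_ : Fintype ι) (τ : ι → E → ZMod 2), (∀ j, τ j ∈ Sp (bdf v univ)) ∧
      (Fintype.card ι : ℤ) = ∑ Z, a Z ∧
      ∀ e, (cnt (fun j => τ j e = 1) : ℤ) = ∑ Z, (if Z e = 1 then a Z else 0) := by
  set m := 2 * (k + 1) with hm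
  set κ : ℝ := 2 ^ (4 * k + 3) with hκ
  set n := ne lam a m with hn
  have hκ2 : (2 : ℝ) ^ m * 2 ^ m / 2 = κ := by
    rw [hκ, ← pow_add, hm, show 2 * (k + 1) + 2 * (k + 1) = (4 * k + 3) + 1 by ring, pow_succ]
    ring
  have hnice : Nice v n m := nice lam a m κ hlam hl ha hκ2.le huni
  have hQ := Q_univ hnice D.isTree D.bag (fun w => (D.conn w).preconnected)
    (fun x => by have := D.width x; omega) (fun x => by have := D.width x; omega) (fun e => by
      obtain ⟨x, hx⟩ := D.edge e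
      refine ⟨x, hx _ ?_, hx _ ?_⟩ <;> rw [hv e] <;> simp)
  obtain ⟨ι, hι, τ, -, h2, h3⟩ := hQ
  have hτ : ∀ j, τ j ∈ Sp (bdf v univ) := by
    intro j
    by_contra hcon
    have h4 := h2 (bd v univ (τ j))
    have h5 : ms n (fun Z => bd v univ Z = bd v univ (τ j)) = 0 := by
      unfold ms
      refine Finset.sum_eq_zero fun Z _ => ?_
      by_cases hZ : n Z = 0
      · simp [hZ]
      · have h6 := hnice.supp Z hZ
        rw [if_neg]
        intro h7
        apply hcon
        intro u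
        have h8 := congrFun h7 u
        have h9 := h6 u
        change ip (bdf v univ u) (τ j) = 0
        rw [← h9]
        exact h8.symm
    rw [h5] at h4
    have h6 : cnt (fun j' => bd v univ (τ j') = bd v univ (τ j)) = 0 := by exact_mod_cast h4
    have h7 := card_cnt (fun j' => bd v univ (τ j') = bd v univ (τ j))
    rw [h6, Nat.card_eq_zero] at h7
    rcases h7 with h7 | h7
    · exact h7.false ⟨j, rfl⟩
    · exact h7.not_finite inferInstance
  -- marginals
  have hm0 : ∑ Z, n Z = ((∑ Z, a Z : ℤ) : ℝ) := by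
    rw [← ft_zero, hn, ne_marg lam a m 0, ft_zero]
    · push_cast; rfl
    · rw [ft_zero, ft_zero, hmass]; push_cast; rfl
  have hm1 : ∀ e, ∑ Z, (if Z e = 1 then n Z else 0) =
      ((∑ Z, (if Z e = 1 then a Z else 0) : ℤ) : ℝ) := by
    intro e
    have h4 : ft n (Pi.single e 1) = ft (fun Z => (a Z : ℝ)) (Pi.single e 1) := by
      refine ne_marg lam a m _ ?_
      rw [ft_single, ft_single, hmass, hmarg e]
      push_cast
      congr 2
    rw [ft_single, ft_single, hm0] at h4
    push_cast at h4 ⊢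
    linarith
  refine ⟨ι, hι, τ, hτ, ?_, ?_⟩
  · have h4 := h2 0
    have h5 : cnt (fun j => bd v univ (τ j) = 0) = Fintype.card ι := by
      rw [← card_cnt, ← Nat.card_eq_fintype_card]
      refine Nat.card_congr (Equiv.subtypeUnivEquiv fun j => ?_)
      funext u
      exact hτ j u
    have h6 : ms n (fun Z => bd v univ Z = 0) = ∑ Z, n Z := by
      unfold ms
      refine Finset.sum_congr rfl fun Z _ => ?_
      by_cases hZ : n Z = 0
      · simp [hZ]
      · rw [if_pos]
        funext u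
        exact hnice.supp Z hZ u
    rw [h5, h6, hm0] at h4
    exact_mod_cast h4
  · intro e
    have h4 := h3 e (Finset.mem_univ e)
    have h5 := hm1 e
    have h6 : ms n (fun Z => Z e = 1) = ∑ Z, (if Z e = 1 then n Z else 0) := by
      unfold ms
      refine Finset.sum_congr rfl fun Z _ => ?_
      by_cases h : Z e = 1
      · rw [if_pos h, if_pos h]
      · rw [if_neg h, if_neg h]
    rw [h6, h5] at h4
    exact_mod_cast h4

end Pool.Agent.U389.FX
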