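import Pool.Agent.H76R2.FC.Struct
import Pool.Agent.H76R2.FC.Basic
import Pool.Agent.H76R2.FC.Enum
import Pool.Agent.H76R2.FC.Dist
import Pool.Agent.H76R2.FC.Glue
import Pool.Agent.H76R2.FC.Tight
import Pool.Agent.H76R2.TW.Pm

set_option autoImplicit false
set_option linter.unusedSectionVars false

/-!
Every `r`-graph has, for some `k ≥ 1`, a family of perfect matchings which covers every edge
exactly `k` times.
-/

namespace Pool.Agent.U389.FX

open Finset H76FC

/-- tight cuts reduce -/
lemma cover_tight {V : Type} [Fintype V] [DecidableEq V] {k r : ℕ} (hr : 1 ≤ r)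
    (p : V → V → ℕ) (hp : RGraph r p) (X : Finset V) (hX : Odd X.card) (hc : cut p X = r)
    (h1 : X.card ≠ 1) (h2 : Xᶜ.card ≠ 1) (hb : CoverBelow k r (Fintype.card V)) :
    Cover k r p := by
  classical
  have hVe : Even (Fintype.card V) := by
    by_contra hodd
    have := hp.odd univ (by simpa using hodd)
    simp [cut] at this
    omega
  have hcardX : ∀ X : Finset V, Fintype.card {v // v ∈ X} + Fintype.card {v // v ∉ X}
      = Fintype.card V := by
    intro X
    rw [← Fintype.card_sum]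
    exact Fintype.card_congr (Equiv.sumCompl (· ∈ X))
  have hcX : ∀ X : Finset V, Fintype.card {v // v ∈ X} = X.card := fun X => by simp
  have hcX' : ∀ X : Finset V, Fintype.card {v // v ∉ X} = Xᶜ.card := fun X => by
    have := hcardX X
    rw [hcX, ← Finset.card_add_card_compl X] at this
    omega
  have hadd : ∀ X : Finset V, X.card + Xᶜ.card = Fintype.card V := fun X =>
    Finset.card_add_card_compl X
  have hodd' : Odd Xᶜ.card := by
    have := hadd X
    rw [← this] at hVe
    exact (Nat.even_add'.1 hVe).1 hX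
  refine sum_form transport p hp X fun p' hp' hcut' _ _ => ?_
  refine tight enum distribute matchFib glue _ _ k r p' hp' (by rw [hcX]; exact hX)
    (by rw [hcX']; exact hodd') ?_ ?_ (by rw [hcut', hc]) (by rw [hcardX]; exact hb)
  · rw [hcX]; obtain ⟨c, hc'⟩ := hX; omega
  · rw [hcX']; obtain ⟨c, hc'⟩ := hodd'; omega

lemma cover_mul {V : Type} [Fintype V] [DecidableEq V] {k r : ℕ} (j : ℕ) {p : V → V → ℕ}
    (h : Cover k r p) : Cover (k * j) r p := by
  obtain ⟨M, h1, h2⟩ := h
  refine reindex V (Fin j × Fin (k * r)) (k * j) r p (fun i => M i.2) ?_ (fun i => h1 i.2) ?_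
  · rw [Fintype.card_prod, Fintype.card_fin, Fintype.card_fin]
    ring
  · intro u v
    have h3 : (univ.filter fun i : Fin j × Fin (k * r) => M i.2 u = v) =
        univ ×ˢ (univ.filter fun i => M i u = v) := by
      ext ⟨a, b⟩
      simp
    rw [h3, Finset.card_product, h2, Finset.card_univ, Fintype.card_fin]
    ring

lemma entry_le {V : Type} [Fintype V] [DecidableEq V] {r : ℕ} {p : V → V → ℕ}
    (hp : RGraph r p) (u v : V) : p u v ≤ r := by
  rw [← hp.reg u]
  exact Finset.single_le_sum (f := fun w => p u w) (fun w _ => Nat.zero_le _) (Finset.mem_univ v)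

/-- a common multiplicity for all graphs with fewer than `n` vertices -/
lemma uniform (r n : ℕ) (h : ∀ (W : Type) [Fintype W] [DecidableEq W] (p : W → W → ℕ),
    Fintype.card W < n → RGraph r p → ∃ k, 1 ≤ k ∧ Cover k r p) :
    ∃ K, 1 ≤ K ∧ CoverBelow K r n := by
  classical
  have h' : ∀ x : Σ m : Fin n, (Fin m.1 → Fin m.1 → Fin (r + 1)), ∃ k, 1 ≤ k ∧
      (RGraph r (fun u v => (x.2 u v : ℕ)) → Cover k r (fun u v => (x.2 u v : ℕ))) := by
    rintro ⟨m, q⟩
    by_cases hq : RGraph r (fun u v => (q u v : ℕ))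
    · obtain ⟨k, hk, hk'⟩ := h (Fin m.1) (fun u v => (q u v : ℕ)) (by simp) hq
      exact ⟨k, hk, fun _ => hk'⟩
    · exact ⟨1, le_rfl, fun h => absurd h hq⟩
  choose k hk1 hk2 using h'
  refine ⟨∏ x, k x, Finset.one_le_prod' fun x _ => hk1 x, ?_⟩
  intro W _ _ p hW hp
  set e := Fintype.equivFin W with he
  set q : Fin (Fintype.card W) → Fin (Fintype.card W) → Fin (r + 1) := fun u v =>
    ⟨p (e.symm u) (e.symm v), Nat.lt_succ_of_le (entry_le hp _ _)⟩ with hq
  obtain ⟨t1, t2, -⟩ := transport W (Fin (Fintype.card W)) e p (fun u v => (q u v : ℕ))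
    (∏ x, k x) r (by intro u v; simp [hq])
  apply t2
  have h1 := hk2 ⟨⟨Fintype.card W, hW⟩, q⟩ (t1 hp)
  have h2 : (∏ x, k x) = k ⟨⟨Fintype.card W, hW⟩, q⟩ *
      ∏ x ∈ Finset.univ.erase ⟨⟨Fintype.card W, hW⟩, q⟩, k x :=
    (Finset.mul_prod_erase _ _ (Finset.mem_univ _)).symm
  rw [h2]
  exact cover_mul _ h1

lemma cover_zero {V : Type} [Fintype V] [DecidableEq V] {p : V → V → ℕ} (hp : RGraph 0 p) :
    Cover 1 0 p := by
  refine reindex V Empty 1 0 p (fun i => i.elim) (by simp) (fun i => i.elim) fun u v => ?_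
  have h1 : p u v = 0 := Nat.le_zero.1 (entry_le hp u v)
  rw [h1, mul_zero, Finset.card_eq_zero]
  exact Finset.eq_empty_of_forall_notMem fun i => i.elim

lemma cover_empty {V : Type} [Fintype V] [DecidableEq V] [IsEmpty V] {r : ℕ} (p : V → V → ℕ) :
    Cover 1 r p :=
  ⟨fun _ => id, fun _ => ⟨fun v => isEmptyElim v, fun v => isEmptyElim v⟩,
    fun u => isEmptyElim u⟩

/-- number of edges of the matching `M` leaving `X` -/
def mu {V : Type} [Fintype V] [DecidableEq V] (M : V → V) (X : Finset V) : ℕ :=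
  ∑ u ∈ X, ∑ v ∈ Xᶜ, if M u = v then 1 else 0

lemma mu_eq {V : Type} [Fintype V] [DecidableEq V] (M : V → V) (X : Finset V) :
    mu M X = (X.filter fun u => M u ∉ X).card := by
  unfold mu
  rw [Finset.card_filter]
  refine Finset.sum_congr rfl fun u _ => ?_
  rw [Finset.sum_ite_eq]
  simp

lemma mu_le {V : Type} [Fintype V] [DecidableEq V] {M : V → V} (hM : IsPM M) (X : Finset V) :
    mu M X ≤ X.card ∧ mu M X ≤ Xᶜ.card := by
  rw [mu_eq]
  refine ⟨Finset.card_filter_le _ _, ?_⟩
  refine Finset.card_le_card_of_injOn M (fun u hu => ?_) (fun u _ v _ h => ?_)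
  · rw [Finset.mem_coe, Finset.mem_filter] at hu
    rw [Finset.mem_coe, Finset.mem_compl]
    exact hu.2
  · rw [← hM.1 u, ← hM.1 v, h]

section step

variable {V : Type} [Fintype V] [DecidableEq V] {r : ℕ} {p : V → V → ℕ} {M : V → V}

/-- the graph `b p - a M` -/
def sub (p : V → V → ℕ) (M : V → V) (a b : ℕ) (u v : V) : ℕ :=
  b * p u v - a * (if M u = v then 1 else 0)

lemma sub_add {a b : ℕ} (h : ∀ u, a ≤ b * p u (M u)) (u v : V) :
    sub p M a b u v + a * (if M u = v then 1 else 0) = b * p u v := by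
  unfold sub
  by_cases h1 : M u = v
  · rw [if_pos h1, mul_one]
    have := h u
    rw [h1] at this
    omega
  · rw [if_neg h1, mul_zero]
    omega

lemma sub_cut {a b : ℕ} (h : ∀ u, a ≤ b * p u (M u)) (X : Finset V) :
    cut (sub p M a b) X + a * mu M X = b * cut p X := by
  unfold cut mu
  rw [Finset.mul_sum, Finset.mul_sum, ← Finset.sum_add_distrib]
  refine Finset.sum_congr rfl fun u _ => ?_
  rw [Finset.mul_sum, Finset.mul_sum, ← Finset.sum_add_distrib]
  exact Finset.sum_congr rfl fun v _ => sub_add h u v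

lemma sub_rgraph (hp : RGraph r p) (hM : IsPM M) {a b : ℕ} (h : ∀ u, a ≤ b * p u (M u))
    (hab : a ≤ b * r) (hX : ∀ X : Finset V, Odd X.card → 2 ≤ mu M X →
      a * mu M X + b * r ≤ b * cut p X + a) : RGraph (b * r - a) (sub p M a b) := by
  constructor
  · intro v
    unfold sub
    rw [hp.loopless]
    simp
  · intro u v
    unfold sub
    rw [hp.symm u v]
    have : (M u = v) ↔ (M v = u) := by
      constructor
      · rintro rfl; exact hM.1 u
      · rintro rfl; exact hM.1 v
    simp only [this]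
  · intro u
    have h1 : ∑ w, sub p M a b u w + a = b * r := by
      have h2 : ∑ w, (sub p M a b u w + a * (if M u = w then 1 else 0)) = ∑ w, b * p u w :=
        Finset.sum_congr rfl fun w _ => sub_add h u w
      rw [Finset.sum_add_distrib, ← Finset.mul_sum, ← Finset.mul_sum, hp.reg] at h2
      simpa using h2
    omega
  · intro X hodd
    have h1 := sub_cut h X
    have h2 : b * r ≤ b * cut p X := Nat.mul_le_mul_left _ (hp.odd X hodd)
    by_cases h3 : 2 ≤ mu M X
    · have := hX X hodd h3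
      omega
    · have h4 : a * mu M X ≤ a * 1 := Nat.mul_le_mul_left _ (by omega)
      omega

lemma cover_back {k a b : ℕ} (hM : IsPM M) (h : ∀ u, a ≤ b * p u (M u)) (hab : a ≤ b * r)
    (hc : Cover k (b * r - a) (sub p M a b)) : Cover (k * b) r p := by
  obtain ⟨N, h1, h2⟩ := hc
  refine reindex V (Fin (k * (b * r - a)) ⊕ Fin (k * a)) (k * b) r p
    (Sum.elim N fun _ => M) ?_ ?_ ?_
  · rw [Fintype.card_sum, Fintype.card_fin, Fintype.card_fin, ← Nat.mul_add,
      Nat.sub_add_cancel hab]
    ring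
  · rintro (i | i)
    · exact h1 i
    · exact hM
  · intro u v
    have h3 : (univ.filter fun i : Fin (k * (b * r - a)) ⊕ Fin (k * a) =>
        Sum.elim N (fun _ => M) i u = v).card =
        (univ.filter fun i => N i u = v).card +
          (univ.filter fun _ : Fin (k * a) => M u = v).card := by
      rw [Finset.card_filter, Fintype.sum_sum_type, Finset.card_filter, Finset.card_filter]
      rfl
    rw [h3, h2]
    have h4 : (univ.filter fun _ : Fin (k * a) => M u = v).card =
        k * (a * (if M u = v then 1 else 0)) := by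
      by_cases h5 : M u = v <;> simp [h5]
    rw [h4, ← Nat.mul_add, sub_add h]
    ring

end step

/-- Every `r`-graph has a uniform cover by perfect matchings. -/
theorem cover_exists : ∀ (n s : ℕ) (V : Type) [Fintype V] [DecidableEq V] (r : ℕ)
    (p : V → V → ℕ), Fintype.card V = n →
    (univ.filter fun x : V × V => p x.1 x.2 ≠ 0).card = s → RGraph r p →
    ∃ k, 1 ≤ k ∧ Cover k r p := by
  intro n
  induction n using Nat.strong_induction_on with
  | _ n ihn =>
  intro s
  induction s using Nat.strong_induction_on with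
  | _ s ihs =>
  intro V _ _ r p hV hs hp
  classical
  rcases Nat.eq_zero_or_pos r with rfl | hr
  · exact ⟨1, le_rfl, cover_zero hp⟩
  rcases isEmpty_or_nonempty V with hemp | hne
  · exact ⟨1, le_rfl, cover_empty p⟩
  have hunif : ∀ r', ∃ K, 1 ≤ K ∧ CoverBelow K r' n := fun r' =>
    uniform r' n fun W _ _ p' hW hp' => ihn (Fintype.card W) hW _ W r' p' rfl rfl hp'
  by_cases ht : ∃ X : Finset V, Odd X.card ∧ cut p X = r ∧ X.card ≠ 1 ∧ Xᶜ.card ≠ 1
  · obtain ⟨X, h1, h2, h3, h4⟩ := ht
    obtain ⟨K, hK1, hK2⟩ := hunif r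
    exact ⟨K, hK1, cover_tight hr p hp X h1 h2 h3 h4 (by rw [hV]; exact hK2)⟩
  push Not at ht
  obtain ⟨M, hM, hMp⟩ := H76TW.pm V r p hr hp
  -- the largest feasible multiple of `M`
  set T1 : Finset ℚ := univ.image fun v : V => (p v (M v) : ℚ) with hT1
  set T2 : Finset ℚ := (univ.filter fun X : Finset V => Odd X.card ∧ 2 ≤ mu M X).image
    fun X => ((cut p X : ℚ) - r) / ((mu M X : ℚ) - 1) with hT2
  have hTne : (T1 ∪ T2).Nonempty := by
    obtain ⟨v⟩ := hne
    exact ⟨_, Finset.mem_union_left _ (Finset.mem_image_of_mem _ (Finset.mem_univ v))⟩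
  set t : ℚ := (T1 ∪ T2).min' hTne with htdef
  have htmem : t ∈ T1 ∪ T2 := Finset.min'_mem _ _
  have htle : ∀ x ∈ T1 ∪ T2, t ≤ x := fun x hx => Finset.min'_le _ x hx
  have hlt : ∀ X : Finset V, Odd X.card → 2 ≤ mu M X → r < cut p X := by
    intro X h1 h2
    have h3 := mu_le hM X
    refine lt_of_le_of_ne (hp.odd X h1) fun h4 => ?_
    have h5 := ht X h1 h4.symm (by omega)
    omega
  have htpos : 0 < t := by
    rcases Finset.mem_union.1 htmem with h | h
    · obtain ⟨v, -, hv⟩ := Finset.mem_image.1 h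
      rw [← hv]
      exact_mod_cast hMp v
    · obtain ⟨X, hX, hv⟩ := Finset.mem_image.1 h
      rw [Finset.mem_filter] at hX
      rw [← hv]
      have h1 : (r : ℚ) < cut p X := by exact_mod_cast hlt X hX.2.1 hX.2.2
      have h2 : (2 : ℚ) ≤ mu M X := by exact_mod_cast hX.2.2
      exact div_pos (by linarith) (by linarith)
  obtain ⟨a, b, hb, hab⟩ : ∃ a b : ℕ, 0 < b ∧ t * b = a := by
    refine ⟨t.num.toNat, t.den, t.den_pos, ?_⟩
    have h1 : ((t.num.toNat : ℤ) : ℚ) = t.num := by
      rw [Int.toNat_of_nonneg (Rat.num_pos.2 htpos).le]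
    rw [Rat.mul_den_eq_num]
    exact_mod_cast h1.symm
  have hbq : (0 : ℚ) < b := by exact_mod_cast hb
  have hF1 : ∀ u, a ≤ b * p u (M u) := by
    intro u
    have h1 := htle _ (Finset.mem_union_left _ (Finset.mem_image_of_mem
      (fun v : V => (p v (M v) : ℚ)) (Finset.mem_univ u)))
    have h2 : (a : ℚ) ≤ b * p u (M u) := by rw [← hab]; nlinarith
    exact_mod_cast h2
  have hF2 : a ≤ b * r := by
    obtain ⟨v⟩ := hne
    exact (hF1 v).trans (Nat.mul_le_mul_left _ (entry_le hp _ _))
  have hF3 : ∀ X : Finset V, Odd X.card → 2 ≤ mu M X →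
      a * mu M X + b * r ≤ b * cut p X + a := by
    intro X h1 h2
    have h3 := htle _ (Finset.mem_union_right _ (Finset.mem_image_of_mem
      (fun X : Finset V => ((cut p X : ℚ) - r) / ((mu M X : ℚ) - 1))
      (Finset.mem_filter.2 ⟨Finset.mem_univ X, h1, h2⟩)))
    have h4 : (2 : ℚ) ≤ mu M X := by exact_mod_cast h2
    rw [le_div_iff₀ (by linarith)] at h3
    have h5 : (a : ℚ) * mu M X + b * r ≤ b * cut p X + a := by
      rw [← hab]
      nlinarith
    exact_mod_cast h5
  have hq := sub_rgraph hp hM hF1 hF2 hF3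
  suffices hmain : ∃ k, 1 ≤ k ∧ Cover k (b * r - a) (sub p M a b) by
    obtain ⟨k, hk, hk'⟩ := hmain
    exact ⟨k * b, Nat.one_le_iff_ne_zero.2 (Nat.mul_ne_zero (by omega) (by omega)),
      cover_back hM hF1 hF2 hk'⟩
  rcases Finset.mem_union.1 htmem with h | h
  · obtain ⟨v, -, hv⟩ := Finset.mem_image.1 h
    have h1 : sub p M a b v (M v) = 0 := by
      have h2 : (a : ℚ) = b * p v (M v) := by rw [← hab, ← hv]; ring
      have h3 : a = b * p v (M v) := by exact_mod_cast h2
      unfold sub
      rw [if_pos rfl, mul_one, h3, Nat.sub_self]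
    refine ihs _ ?_ V _ (sub p M a b) hV rfl hq
    rw [← hs]
    refine Finset.card_lt_card ⟨?_, ?_⟩
    · intro x hx
      rw [Finset.mem_filter] at hx ⊢
      refine ⟨hx.1, fun h0 => hx.2 ?_⟩
      unfold sub
      rw [h0, mul_zero, Nat.zero_sub]
    · intro hsub
      have h2 : (v, M v) ∈ univ.filter fun x : V × V => p x.1 x.2 ≠ 0 := by
        rw [Finset.mem_filter]
        exact ⟨Finset.mem_univ _, (hMp v).ne'⟩
      have h3 := hsub h2
      rw [Finset.mem_filter] at h3
      exact h3.2 h1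
  · obtain ⟨X, hX, hv⟩ := Finset.mem_image.1 h
    rw [Finset.mem_filter] at hX
    have h4 : (2 : ℚ) ≤ mu M X := by exact_mod_cast hX.2.2
    have h5 : t * ((mu M X : ℚ) - 1) = (cut p X : ℚ) - r := by
      rw [← hv, div_mul_cancel₀]
      intro h0
      linarith
    have h6 : (a : ℚ) * mu M X + b * r = b * cut p X + a := by
      rw [← hab]
      linear_combination (b : ℚ) * h5
    have h7 : a * mu M X + b * r = b * cut p X + a := by exact_mod_cast h6
    have h8 := sub_cut hF1 X
    have h9 : cut (sub p M a b) X = b * r - a := by omega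
    rcases Nat.eq_zero_or_pos (b * r - a) with h0 | h0
    · rw [h0] at hq ⊢
      exact ⟨1, le_rfl, cover_zero hq⟩
    · obtain ⟨K, hK1, hK2⟩ := hunif (b * r - a)
      have h10 := mu_le hM X
      exact ⟨K, hK1, cover_tight h0 _ hq X hX.2.1 h9 (by omega) (by omega)
        (by rw [hV]; exact hK2)⟩

end Pool.Agent.U389.FX
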