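import Pool.Agent.U389.FX.Gadget

set_option autoImplicit false
set_option linter.unusedSectionVars false

/-!
Every bridgeless graph has, for some `m ≥ 1`, a family of `3 m` even subgraphs which covers every
edge exactly `2 m` times.
-/

namespace Pool.Agent.U389.FX

open Finset H76FC
open scoped Classical
open Pool.Agent.U389.FR
open Pool.Agent.H126R2.CDC (MGraph IsFl isFl_iff)

variable {V E : Type} [Fintype V] [DecidableEq V] [Fintype E] [DecidableEq E]

/-- the even subgraph of a perfect matching of the gadget -/
noncomputable def zz (v : E × Bool → V) (M : E × Bool → E × Bool) (b : ZMod 2) : E → ZMod 2 :=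
  fun e => if v (e, false) = v (e, true) then b else if M (e, false) = (e, true) then 0 else 1

lemma zz_apply {v : E × Bool → V} {M : E × Bool → E × Bool} (hM : IsPM M) (b : ZMod 2)
    (h : E × Bool) : zz v M b h.1 = if v (fl h) = v h then b else if M h = fl h then 0 else 1 := by
  obtain ⟨e, c⟩ := h
  unfold zz fl
  cases c
  · simp only [Bool.not_false]
    by_cases h1 : v (e, false) = v (e, true)
    · rw [if_pos h1, if_pos h1.symm]
    · rw [if_neg h1, if_neg (Ne.symm h1)]
  · simp only [Bool.not_true]
    by_cases h1 : v (e, false) = v (e, true)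
    · rw [if_pos h1, if_pos h1]
    · rw [if_neg h1, if_neg h1]
      have h2 : M (e, false) = (e, true) ↔ M (e, true) = (e, false) := by
        constructor
        · intro h3
          rw [← h3, hM.1]
        · intro h3
          rw [← h3, hM.1]
      simp only [h2]

lemma zz_flow {v : E × Bool → V} {M : E × Bool → E × Bool} (hM : IsPM M)
    (hMv : ∀ h, M h = fl h ∨ v (M h) = v h) (b : ZMod 2) : IsFl v (zz v M b) := by
  intro w
  have h0 : ∀ h : E × Bool, (if v h = w then zz v M b h.1 else 0) =
      (if v h = w ∧ v (M h) = w then 1 else 0) +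
      (if v h = w ∧ v (fl h) = w then b + 1 else 0) := by
    intro h
    have h11 : (1 : ZMod 2) + 1 = 0 := by decide
    by_cases h1 : v h = w
    · rw [if_pos h1, zz_apply hM]
      by_cases h2 : v (fl h) = w
      · rw [if_pos (h2.trans h1.symm)]
        have h3 : v (M h) = w := by
          rcases hMv h with h4 | h4
          · rw [h4, h2]
          · rw [h4, h1]
        rw [if_pos ⟨h1, h3⟩, if_pos ⟨h1, h2⟩, add_comm b 1, ← add_assoc, h11, zero_add]
      · rw [if_neg (fun h3 => h2 (h3.trans h1)),
          if_neg (fun h3 : v h = w ∧ v (fl h) = w => h2 h3.2), add_zero]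
        by_cases h3 : M h = fl h
        · rw [if_pos h3, if_neg]
          rintro ⟨-, h4⟩
          rw [h3] at h4
          exact h2 h4
        · have h5 : v (M h) = w := by
            rcases hMv h with h4 | h4
            · exact absurd h4 h3
            · rw [h4, h1]
          rw [if_neg h3, if_pos ⟨h1, h5⟩]
    · rw [if_neg h1, if_neg (fun h2 => h1 h2.1), if_neg (fun h2 => h1 h2.1), add_zero]
  rw [Finset.sum_congr rfl fun h _ => h0 h, Finset.sum_add_distrib]
  have e1 : ∑ h : E × Bool, (if v h = w ∧ v (M h) = w then (1 : ZMod 2) else 0) = 0 := by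
    refine Finset.sum_involution (fun h _ => M h) ?_ ?_ ?_ ?_
    · intro h _
      rw [hM.1 h]
      by_cases h1 : v h = w ∧ v (M h) = w
      · rw [if_pos h1, if_pos ⟨h1.2, h1.1⟩]
        decide
      · rw [if_neg h1, if_neg (fun h2 => h1 ⟨h2.2, h2.1⟩), add_zero]
    · intro h _ _
      exact hM.2 h
    · intro h _
      exact Finset.mem_univ _
    · intro h _
      exact hM.1 h
  have e2 : ∑ h : E × Bool, (if v h = w ∧ v (fl h) = w then b + 1 else 0) = 0 := by
    refine Finset.sum_involution (fun h _ => fl h) ?_ ?_ ?_ ?_
    · intro h _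
      rw [fl_fl]
      by_cases h1 : v h = w ∧ v (fl h) = w
      · rw [if_pos h1, if_pos ⟨h1.2, h1.1⟩]
        exact CharTwo.add_self_eq_zero _
      · rw [if_neg h1, if_neg (fun h2 => h1 ⟨h2.2, h2.1⟩), add_zero]
    · intro h _ _
      exact fl_ne h
    · intro h _
      exact Finset.mem_univ _
    · intro h _
      exact fl_fl h
  rw [e1, e2, add_zero]

/-- **Fractional theorem.** A bridgeless graph has, for some `m ≥ 1`, a family of `3 m` even
subgraphs which covers every edge exactly `2 m` times. -/
theorem frac_even (G : MGraph V E) (hG : G.Bridgeless) {v : E × Bool → V}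
    (hv : ∀ e, G.ends e = s(v (e, false), v (e, true))) :
    ∃ m : ℕ, 1 ≤ m ∧ ∃ Z : Fin (3 * m) → E → ZMod 2, (∀ i, Z i ∈ Sp (bdf v univ)) ∧
      ∀ e, (univ.filter fun i => Z i e = 1).card = 2 * m := by
  obtain ⟨k, hk, M, hM, hc⟩ := cover_exists _ _ (E × Bool) (3 * DD E) (gp v) rfl rfl
    (gp_rgraph G hG hv)
  have hD := DD_pos (E := E)
  have hMv : ∀ i h, M i h = fl h ∨ v (M i h) = v h := by
    intro i h
    by_contra hcon
    push Not at hcon
    have h1 := hc h (M i h)
    have h2 : gp v h (M i h) = 0 := by
      unfold gp
      rw [if_neg hcon.1, if_neg (fun h3 => hcon.2 h3.2)]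
    rw [h2, mul_zero, Finset.card_eq_zero] at h1
    have h3 : i ∈ (univ.filter fun j => M j h = M i h) := by simp
    rw [h1] at h3
    exact absurd h3 (Finset.notMem_empty _)
  have hlen : 3 * (k * DD E) = k * (3 * DD E) := by ring
  refine ⟨k * DD E, Nat.mul_pos hk hD, fun i =>
    zz v (M (finCongr hlen i)) (if i.val < 2 * (k * DD E) then 1 else 0), ?_, ?_⟩
  · intro i
    rw [mem_Sp_iff]
    exact zz_flow (hM _) (hMv _) _
  · intro e
    by_cases h1 : v (e, false) = v (e, true)
    · have h2 : (univ.filter fun i : Fin (3 * (k * DD E)) =>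
          zz v (M (finCongr hlen i)) (if i.val < 2 * (k * DD E) then 1 else 0) e = 1) =
          (univ.filter fun i : Fin (3 * (k * DD E)) => i.val < 2 * (k * DD E)) := by
        ext i
        simp only [Finset.mem_filter, Finset.mem_univ, true_and, zz, if_pos h1]
        by_cases h3 : i.val < 2 * (k * DD E) <;> simp [h3]
      rw [h2, Fin.card_filter_val_lt]
      omega
    · have h2 : (univ.filter fun i : Fin (3 * (k * DD E)) =>
          zz v (M (finCongr hlen i)) (if i.val < 2 * (k * DD E) then 1 else 0) e = 1).card =
          (univ.filter fun i : Fin (k * (3 * DD E)) => ¬ M i (e, false) = (e, true)).card := by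
        refine Finset.card_bij (fun i _ => finCongr hlen i) ?_ ?_ ?_
        · intro i hi
          simp only [Finset.mem_filter, Finset.mem_univ, true_and, zz, if_neg h1] at hi ⊢
          intro h3
          rw [if_pos h3] at hi
          exact absurd hi (by decide)
        · intro i _ j _ hij
          exact (finCongr hlen).injective hij
        · intro j hj
          refine ⟨(finCongr hlen).symm j, ?_, by simp⟩
          simp only [Finset.mem_filter, Finset.mem_univ, true_and, zz, if_neg h1] at hj ⊢
          rw [Equiv.apply_symm_apply, if_neg hj]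
      rw [h2]
      have h3 := hc (e, false) (e, true)
      have h4 : gp v (e, false) (e, true) = DD E := by
        unfold gp
        rw [if_pos (by simp [fl]), if_neg (fun h5 => h1 h5.2.symm), add_zero]
      rw [h4] at h3
      have h5 := Finset.card_filter_add_card_filter_not
        (s := (univ : Finset (Fin (k * (3 * DD E))))) (fun i => M i (e, false) = (e, true))
      rw [h3, Finset.card_univ, Fintype.card_fin] at h5
      have h6 : k * (3 * DD E) = 3 * (k * DD E) := by ring
      omega

end Pool.Agent.U389.FX
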