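import Pool.Agent.U389.FX.Frac
import Pool.Agent.U389.FX.Exact

set_option autoImplicit false
set_option linter.unusedSectionVars false

/-!
Every bridgeless graph has, for some `m ≥ 1`, a family of `3 m` even subgraphs which covers every
edge exactly `2 m` times.
-/

namespace Pool.Agent.U389.FX

open Finset H76FC
open scoped Classical
open Pool.Agent.U389.FR
open Pool.Agent.H126R2.CDC (MGraph IsFl isFl_iff)

variable {V E : Type} [Fintype V] [DecidableEq V] [Fintype E] [DecidableEq E]

/-- the other half of the edge -/
def fl (h : E × Bool) : E × Bool := (h.1, !h.2)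

lemma fl_fl (h : E × Bool) : fl (fl h) = h := by simp [fl]

lemma fl_ne (h : E × Bool) : fl h ≠ h := by
  intro h1
  have := congrArg Prod.snd h1
  simp [fl] at this

/-- number of half-edges at `w` -/
def dg (v : E × Bool → V) (w : V) : ℕ := (univ.filter fun h => v h = w).card

/-- a number divisible by all `d - 1` -/
def DD (E : Type) [Fintype E] : ℕ := (Fintype.card (E × Bool)).factorial

lemma DD_pos : 0 < DD E := Nat.factorial_pos _

/-- the gadget: every vertex is replaced by a weighted complete graph on its half-edges -/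
def gp (v : E × Bool → V) (h h' : E × Bool) : ℕ :=
  (if h' = fl h then DD E else 0) +
    (if h' ≠ h ∧ v h' = v h then 2 * DD E / (dg v (v h) - 1) else 0)

lemma dg_le (v : E × Bool → V) (w : V) : dg v w ≤ Fintype.card (E × Bool) := Finset.card_le_univ _

lemma two_le_dg (G : MGraph V E) (hG : G.Bridgeless) {v : E × Bool → V}
    (hv : ∀ e, G.ends e = s(v (e, false), v (e, true))) (h : E × Bool) : 2 ≤ dg v (v h) := by
  have h1 : 1 ≤ dg v (v h) := Finset.card_pos.2 ⟨h, by simp⟩
  by_contra hcon
  have h2 : dg v (v h) = 1 := by omega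
  obtain ⟨h0, hh0⟩ := Finset.card_eq_one.1 h2
  have h3 : ∀ h', v h' = v h → h' = h := by
    intro h' hh'
    have e1 : h' ∈ ({h0} : Finset (E × Bool)) := by rw [← hh0]; simp [hh']
    have e2 : h ∈ ({h0} : Finset (E × Bool)) := by rw [← hh0]; simp
    rw [Finset.mem_singleton] at e1 e2
    rw [e1, e2]
  refine G.no_one_cut hG v hv {v h} ?_
  have h4 : (univ.filter fun e => ¬ (v (e, false) ∈ ({v h} : Finset V) ↔
      v (e, true) ∈ ({v h} : Finset V))) = {h.1} := by
    ext e
    simp only [Finset.mem_filter, Finset.mem_univ, true_and, Finset.mem_singleton]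
    constructor
    · intro h5
      by_contra hne
      apply h5
      constructor
      · intro h6
        exact absurd (congrArg Prod.fst (h3 _ h6)) hne
      · intro h6
        exact absurd (congrArg Prod.fst (h3 _ h6)) hne
    · rintro rfl h5
      obtain ⟨e, b⟩ := h
      cases b
      · have h6 := h3 _ (h5.1 rfl)
        simp at h6
      · have h6 := h3 _ (h5.2 rfl)
        simp at h6
  have h7 := congrArg Finset.card h4
  rw [Finset.card_singleton] at h7
  exact h7

lemma dvd_DD {v : E × Bool → V} {h : E × Bool} (h2 : 2 ≤ dg v (v h)) :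
    (dg v (v h) - 1) * (2 * DD E / (dg v (v h) - 1)) = 2 * DD E := by
  refine Nat.mul_div_cancel' (Dvd.dvd.mul_left ?_ 2)
  exact Nat.dvd_factorial (by omega) (by have := dg_le v (v h); omega)

lemma gp_symm (v : E × Bool → V) (h h' : E × Bool) : gp v h h' = gp v h' h := by
  unfold gp
  congr 1
  · have : (h' = fl h) ↔ (h = fl h') := by
      constructor
      · rintro rfl; rw [fl_fl]
      · rintro rfl; rw [fl_fl]
    simp only [this]
  · by_cases h1 : h' ≠ h ∧ v h' = v h
    · rw [if_pos h1, if_pos ⟨h1.1.symm, h1.2.symm⟩, h1.2]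
    · rw [if_neg h1, if_neg (fun h2 => h1 ⟨h2.1.symm, h2.2.symm⟩)]

lemma gp_reg {v : E × Bool → V} {h : E × Bool} (h2 : 2 ≤ dg v (v h)) :
    ∑ h', gp v h h' = 3 * DD E := by
  unfold gp
  rw [Finset.sum_add_distrib, Finset.sum_ite_eq' Finset.univ (fl h), if_pos (Finset.mem_univ _),
    ← Finset.sum_filter, Finset.sum_const, smul_eq_mul]
  have h3 : (univ.filter fun h' => h' ≠ h ∧ v h' = v h) =
      (univ.filter fun h' => v h' = v h).erase h := by
    ext h'
    simp [and_comm]
  rw [h3, Finset.card_erase_of_mem (by simp)]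
  have h4 := dvd_DD h2
  unfold dg at h4 ⊢
  rw [h4]
  ring

/-- the crossing half-edges of a set of half-edges -/
lemma cross_odd (X : Finset (E × Bool)) (hX : Odd X.card) :
    Odd (X.filter fun h => fl h ∉ X).card := by
  have h1 := parity (E × Bool) (fun h h' => if h' = fl h then 1 else 0) (fun _ => 1) X
    (fun h => if_neg (fun h0 => fl_ne h h0.symm)) (fun h h' => by
      have : (h' = fl h) ↔ (h = fl h') := by
        constructor
        · rintro rfl; rw [fl_fl]
        · rintro rfl; rw [fl_fl]
      simp only [this]) (fun h => by simp)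
  have h2 : cut (fun h h' : E × Bool => if h' = fl h then 1 else 0) X =
      (X.filter fun h => fl h ∉ X).card := by
    unfold cut
    rw [Finset.card_filter]
    refine Finset.sum_congr rfl fun h _ => ?_
    rw [Finset.sum_ite_eq']
    simp
  rw [h2] at h1
  simp only [Finset.sum_const, smul_eq_mul, mul_one] at h1
  rw [Nat.even_add'] at h1
  exact h1.2 hX

lemma gp_rgraph (G : MGraph V E) (hG : G.Bridgeless) {v : E × Bool → V}
    (hv : ∀ e, G.ends e = s(v (e, false), v (e, true))) : RGraph (3 * DD E) (gp v) := by
  refine ⟨fun h => ?_, fun h h' => gp_symm v h h', fun h => gp_reg (two_le_dg G hG hv h), ?_⟩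
  · unfold gp
    rw [if_neg (fun h0 => fl_ne h h0.symm), if_neg (fun h0 => h0.1 rfl)]
  · intro X hX
    set c := (X.filter fun h => fl h ∉ X).card with hc
    have hodd : Odd c := cross_odd X hX
    have h1 : cut (gp v) X = DD E * c +
        ∑ h ∈ X, ∑ h' ∈ Xᶜ, (if h' ≠ h ∧ v h' = v h then 2 * DD E / (dg v (v h) - 1) else 0) := by
      unfold cut gp
      simp only [Finset.sum_add_distrib]
      congr 1
      rw [hc, Finset.card_filter, Finset.mul_sum]
      refine Finset.sum_congr rfl fun h _ => ?_
      rw [Finset.sum_ite_eq']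
      simp
    rw [h1]
    by_cases h3 : 3 ≤ c
    · have := Nat.mul_le_mul_left (DD E) h3
      omega
    have hc1 : c = 1 := by
      obtain ⟨j, hj⟩ := hodd
      omega
    -- a split vertex
    obtain ⟨h0, h0X, h0', h0'X, h0v⟩ : ∃ h0 ∈ X, ∃ h0', h0' ∉ X ∧ v h0' = v h0 := by
      by_contra hcon
      push Not at hcon
      refine G.no_one_cut hG v hv (X.image v) ?_
      have key : ∀ h, v h ∈ X.image v ↔ h ∈ X := by
        intro h
        constructor
        · intro h2
          obtain ⟨h', hh', e⟩ := Finset.mem_image.1 h2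
          by_contra h4
          exact hcon h' hh' h h4 e.symm
        · exact fun h2 => Finset.mem_image_of_mem v h2
      have h5 : (univ.filter fun e => ¬ (v (e, false) ∈ X.image v ↔ v (e, true) ∈ X.image v)).card
          = c := by
        rw [hc]
        refine (Finset.card_bij (fun h _ => h.1) ?_ ?_ ?_).symm
        · intro h hh
          rw [Finset.mem_filter] at hh
          rw [Finset.mem_filter, key, key]
          refine ⟨Finset.mem_univ _, ?_⟩
          obtain ⟨e, b⟩ := h
          cases b
          · exact fun h6 => hh.2 (h6.1 hh.1)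
          · exact fun h6 => hh.2 (h6.2 hh.1)
        · intro h hh h' hh' e
          rw [Finset.mem_filter] at hh hh'
          obtain ⟨e1, b1⟩ := h
          obtain ⟨e2, b2⟩ := h'
          simp only at e
          subst e
          by_contra hne
          have : (e1, b2) = fl (e1, b1) := by
            cases b1 <;> cases b2 <;> simp_all [fl]
          exact hh.2 (this ▸ hh'.1)
        · intro e he
          rw [Finset.mem_filter, key, key] at he
          by_cases h6 : (e, false) ∈ X
          · refine ⟨(e, false), ?_, rfl⟩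
            rw [Finset.mem_filter]
            exact ⟨h6, fun h7 => he.2 ⟨fun _ => h7, fun _ => h6⟩⟩
          · have h7 : (e, true) ∈ X := by
              by_contra h7
              exact he.2 ⟨fun h8 => absurd h8 h6, fun h8 => absurd h8 h7⟩
            refine ⟨(e, true), ?_, rfl⟩
            rw [Finset.mem_filter]
            exact ⟨h7, h6⟩
      rw [hc1] at h5
      exact h5
    -- the second part is at least `2 D`
    set A := X.filter fun h => v h = v h0 with hA
    set B := Xᶜ.filter fun h => v h = v h0 with hB
    have hAB : A.card + B.card = dg v (v h0) := by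
      unfold dg
      rw [← Finset.card_union_of_disjoint]
      · congr 1
        ext h
        simp only [hA, hB, Finset.mem_union, Finset.mem_filter, Finset.mem_compl, Finset.mem_univ,
          true_and]
        tauto
      · rw [Finset.disjoint_left]
        intro h h4 h5
        simp only [hA, hB, Finset.mem_filter, Finset.mem_compl] at h4 h5
        exact h5.1 h4.1
    have hA1 : 1 ≤ A.card := Finset.card_pos.2 ⟨h0, by simp [hA, h0X]⟩
    have hB1 : 1 ≤ B.card := Finset.card_pos.2 ⟨h0', by simp [hB, h0'X, h0v]⟩
    have h4 : A.card * B.card * (2 * DD E / (dg v (v h0) - 1)) ≤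
        ∑ h ∈ X, ∑ h' ∈ Xᶜ, (if h' ≠ h ∧ v h' = v h then 2 * DD E / (dg v (v h) - 1) else 0) := by
      calc A.card * B.card * (2 * DD E / (dg v (v h0) - 1)) =
          ∑ h ∈ A, ∑ h' ∈ B, (2 * DD E / (dg v (v h0) - 1)) := by
            simp only [Finset.sum_const, smul_eq_mul]
            ring
        _ = ∑ h ∈ A, ∑ h' ∈ B, (if h' ≠ h ∧ v h' = v h then 2 * DD E / (dg v (v h) - 1) else 0) := by
            refine Finset.sum_congr rfl fun h hh => Finset.sum_congr rfl fun h' hh' => ?_
            simp only [hA, hB, Finset.mem_filter, Finset.mem_compl] at hh hh'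
            rw [if_pos ⟨fun e => hh'.1 (e ▸ hh.1), by rw [hh.2, hh'.2]⟩, hh.2]
        _ ≤ ∑ h ∈ A, ∑ h' ∈ Xᶜ, (if h' ≠ h ∧ v h' = v h then 2 * DD E / (dg v (v h) - 1) else 0) :=
            Finset.sum_le_sum fun h _ =>
              Finset.sum_le_sum_of_subset (Finset.filter_subset _ _)
        _ ≤ _ := Finset.sum_le_sum_of_subset (Finset.filter_subset _ _)
    have h5 : dg v (v h0) - 1 ≤ A.card * B.card := by
      rw [← hAB]
      obtain ⟨x, hx⟩ : ∃ x, A.card = x + 1 := ⟨A.card - 1, by omega⟩
      obtain ⟨y, hy⟩ : ∃ y, B.card = y + 1 := ⟨B.card - 1, by omega⟩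
      rw [hx, hy]
      have : (x + 1) * (y + 1) = x * y + x + y + 1 := by ring
      omega
    have h6 := dvd_DD (two_le_dg G hG hv h0)
    have h7 := Nat.mul_le_mul_right (2 * DD E / (dg v (v h0) - 1)) h5
    rw [h6] at h7
    rw [hc1, mul_one]
    omega

end Pool.Agent.U389.FX
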