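import Pool.Agent.U389.FX.FracEven
import Pool.Agent.W831.ECC.Core

set_option autoImplicit false
set_option linter.unusedSectionVars false

/-!
Covers by even subgraphs of near-constant even weights, with a bound on the number of the subgraphs.
-/

namespace Pool.Agent.U389.FX

open Finset
open scoped Classical
open Pool.Agent.U389.FR
open Pool.Agent.Helper879.ECD (f2_add_self cn)
open Pool.Agent.H126R2.CDC (MGraph IsFl isFl_iff exists_flow8 exists_double_cover T3)
open Pool.Agent.H126R2.NC (TC nine_colouring_bridgeless)

variable {V E : Type} [Fintype V] [DecidableEq V] [Fintype E] [DecidableEq E]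

/-- `n` even subgraphs which cover the edge `e` exactly `p e` times -/
def CW (v : E × Bool → V) (n : ℕ) (p : E → ℕ) : Prop :=
  ∃ (ι : Type) (_ : Fintype ι) (Z : ι → E → ZMod 2), Fintype.card ι = n ∧ (∀ i, IsFl v (Z i)) ∧
    ∀ e, (univ.filter fun i => Z i e = 1).card = p e

lemma CW.add {v : E × Bool → V} {n n' : ℕ} {p p' : E → ℕ} (h : CW v n p) (h' : CW v n' p') :
    CW v (n + n') (fun e => p e + p' e) := by
  obtain ⟨ι, _, Z, h1, h2, h3⟩ := h
  obtain ⟨ι', _, Z', h1', h2', h3'⟩ := h'
  refine ⟨ι ⊕ ι', inferInstance, Sum.elim Z Z', ?_, ?_, ?_⟩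
  · rw [Fintype.card_sum, h1, h1']
  · rintro (i | i)
    · exact h2 i
    · exact h2' i
  · intro e
    show _ = p e + p' e
    rw [← h3 e, ← h3' e, Finset.card_filter, Finset.card_filter, Finset.card_filter,
      Fintype.sum_sum_type]
    rfl

lemma CW.zero (v : E × Bool → V) (n : ℕ) : CW v n (fun _ => 0) := by
  refine ⟨Fin n, inferInstance, fun _ => 0, Fintype.card_fin n, ?_, ?_⟩
  · intro i w
    simp
  · intro e
    simp

lemma CW.mono {v : E × Bool → V} {n n' : ℕ} {p : E → ℕ} (h : CW v n p) (hn : n ≤ n') :
    CW v n' p := by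
  have h1 := h.add (CW.zero v (n' - n))
  rwa [Nat.add_sub_cancel' hn] at h1

lemma CW.sum {v : E × Bool → V} {κ : Type} (s : Finset κ) (n : κ → ℕ) (p : κ → E → ℕ)
    (h : ∀ j ∈ s, CW v (n j) (p j)) : CW v (∑ j ∈ s, n j) (fun e => ∑ j ∈ s, p j e) := by
  induction s using Finset.induction_on with
  | empty => simpa using CW.zero v 0
  | insert a s ha ih =>
    have h1 := (h a (Finset.mem_insert_self a s)).add
      (ih fun j hj => h j (Finset.mem_insert_of_mem hj))
    rw [Finset.sum_insert ha]
    convert h1 using 1
    funext e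
    rw [Finset.sum_insert ha]

lemma CW.smul {v : E × Bool → V} {n : ℕ} {p : E → ℕ} (h : CW v n p) (t : ℕ) :
    CW v (t * n) (fun e => t * p e) := by
  have h1 := CW.sum (Finset.range t) (fun _ => n) (fun _ => p) (fun _ _ => h)
  simpa using h1

/-- a double cover of `G - X` by eight even subgraphs -/
lemma cw_minus {v : E × Bool → V} (X : Finset E)
    (hX : ∀ B : Finset V, cn (fun e => v (e, false)) (fun e => v (e, true)) (univ \ X) B ≠ 1) :
    CW v 8 (fun e => if e ∈ X then 0 else 2) := by
  let v' : E × Bool → V := fun h => if h.1 ∈ X then v (h.1, false) else v h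
  obtain ⟨S, hS1, hS2⟩ := exists_double_cover v' (by
    intro B
    have h1 : cn (fun e => v' (e, false)) (fun e => v' (e, true)) univ B =
        cn (fun e => v (e, false)) (fun e => v (e, true)) (univ \ X) B := by
      unfold cn
      congr 1
      ext e
      simp only [Finset.mem_filter, Finset.mem_univ, true_and, Finset.mem_sdiff, v']
      by_cases h : e ∈ X
      · simp [h]
      · simp [h]
    rw [h1]
    exact hX B)
  refine ⟨T3, inferInstance, fun c e => if c ∈ S e ∧ e ∉ X then 1 else 0, by decide, ?_, ?_⟩
  · intro c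
    rw [isFl_iff]
    have h1 := (isFl_iff v' _).1 (hS2 c)
    intro f
    refine Eq.trans ?_ (h1 f)
    apply Finset.sum_congr rfl
    intro e _
    by_cases h : e ∈ X
    · simp only [v', h, if_true]
      rw [f2_add_self, mul_zero, if_neg (by simp), zero_mul]
    · simp only [v', h, if_false]
      congr 1
      simp
  · intro e
    by_cases h : e ∈ X
    · simp [h]
    · beta_reduce
      rw [if_neg h]
      refine Eq.trans ?_ (hS1 e)
      congr 1
      ext c
      simp [h]

/-- near-constant even weights -/
lemma cw_near (G : MGraph V E) (hG : G.Bridgeless) {v : E × Bool → V}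
    (hv : ∀ e, G.ends e = s(v (e, false), v (e, true))) (q : E → ℕ) (M T : ℕ) (hT : 9 * T ≤ M)
    (hq1 : ∀ e, q e ≤ M) (hq2 : ∀ e, M ≤ q e + T)
    (htc : ∀ e f, TC (fun e => v (e, false)) (fun e => v (e, true)) e f → q e = q f) :
    CW v (8 * M) (fun e => 2 * q e) := by
  obtain ⟨col, hcol1, hcol2⟩ := nine_colouring_bridgeless (fun e => v (e, false))
    (fun e => v (e, true)) (G.no_one_cut hG v hv)
  have hcov : ∀ (t : ℕ) (γ : Fin 3 × Fin 3), CW v 8 (fun e =>
        if e ∈ univ.filter (fun e => t < M - q e ∧ col e = γ) then 0 else 2) := by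
    intro t γ
    apply cw_minus
    apply hcol2 _ γ
    · intro e he
      exact (Finset.mem_filter.1 he).2.2
    · intro e he f hef
      rw [Finset.mem_filter] at he ⊢
      have h1 := htc e f hef
      refine ⟨Finset.mem_univ _, ?_, ?_⟩
      · have := he.2.1; omega
      · rw [← hcol1 e f hef]; exact he.2.2
  have hcov0 : CW v 8 (fun _ => 2) := by
    have := cw_minus (v := v) ∅ (by simpa using G.no_one_cut hG v hv)
    simpa using this
  have h1 := (CW.sum ((Finset.range T) ×ˢ (univ : Finset (Fin 3 × Fin 3))) (fun _ => 8)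
    (fun x e => if e ∈ univ.filter (fun e => x.1 < M - q e ∧ col e = x.2) then 0 else 2)
    (fun x _ => hcov x.1 x.2)).add (hcov0.smul (M - 9 * T))
  convert h1 using 1
  · rw [Finset.sum_const, Finset.card_product, Finset.card_range, smul_eq_mul]
    simp only [Finset.card_univ, Fintype.card_prod, Fintype.card_fin]
    omega
  · funext e
    have h1 : ∑ x ∈ (Finset.range T) ×ˢ (univ : Finset (Fin 3 × Fin 3)),
        (if e ∈ univ.filter (fun e => x.1 < M - q e ∧ col e = x.2) then 0 else 2) + 2 * (M - q e) =
          18 * T := by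
      rw [Finset.sum_product]
      dsimp only
      have h2 : ∀ t ∈ Finset.range T, ∑ γ : Fin 3 × Fin 3,
          (if e ∈ univ.filter (fun e => t < M - q e ∧ col e = γ) then 0 else 2) +
          (if t < M - q e then 2 else 0) = 18 := by
        intro t _
        have h3 : ∀ γ ∈ (univ : Finset (Fin 3 × Fin 3)),
            (if e ∈ univ.filter (fun e => t < M - q e ∧ col e = γ) then 0 else 2) +
            (if γ = col e then (if t < M - q e then 2 else 0) else 0) = 2 := by
          intro γ _
          by_cases h4 : t < M - q e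
          · by_cases h5 : γ = col e
            · subst h5; simp [h4]
            · simp [h4, h5, Ne.symm h5]
          · simp [h4]
        have h4 := Finset.sum_congr rfl h3
        rw [Finset.sum_add_distrib, Finset.sum_ite_eq'] at h4
        simpa using h4
      have h5 := Finset.sum_congr rfl h2
      rw [Finset.sum_add_distrib, ← Finset.sum_filter, Finset.sum_const, Finset.sum_const,
        Finset.card_range] at h5
      have h6 : ((Finset.range T).filter (fun t => t < M - q e)).card = M - q e := by
        have h7 : (Finset.range T).filter (fun t => t < M - q e) = Finset.range (M - q e) := by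
          ext t
          rw [Finset.mem_filter, Finset.mem_range, Finset.mem_range]
          have := hq2 e
          omega
        rw [h7, Finset.card_range]
      rw [h6] at h5
      simp only [smul_eq_mul] at h5
      omega
    have h2 := hq1 e
    have h4 : (M - 9 * T) * 2 + 18 * T = 2 * M := by omega
    omega

/-- the parity of a family of even subgraphs can be corrected by one more -/
lemma CW.parity {v : E × Bool → V} {n : ℕ} {p : E → ℕ} (h : CW v n p) :
    CW v (n + 1) (fun e => p e + p e % 2) := by
  obtain ⟨ι, _, Z, h1, h2, h3⟩ := h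
  have h4 : CW v 1 (fun e => p e % 2) := by
    refine ⟨Unit, inferInstance, fun _ e => ∑ i, Z i e, rfl, ?_, ?_⟩
    · intro _ w
      have h5 : ∀ h : E × Bool, (if v h = w then ∑ i, Z i h.1 else 0) =
          ∑ i, (if v h = w then Z i h.1 else 0) := by
        intro h
        split_ifs <;> simp
      rw [Finset.sum_congr rfl fun h _ => h5 h, Finset.sum_comm]
      exact Finset.sum_eq_zero fun i _ => h2 i w
    · intro e
      have h5 : ∑ i, Z i e = (p e : ZMod 2) := by
        rw [← h3 e, Finset.card_filter]
        push_cast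
        refine Finset.sum_congr rfl fun i _ => ?_
        rcases z2_cases (Z i e) with h6 | h6 <;> simp [h6]
      beta_reduce
      rw [h5]
      rcases Nat.even_or_odd (p e) with h6 | h6
      · rw [(ZMod.natCast_eq_zero_iff_even).2 h6, Nat.even_iff.1 h6]
        simp
      · rw [(ZMod.natCast_eq_one_iff_odd).2 h6, Nat.odd_iff.1 h6]
        simp
  exact CW.add ⟨ι, _, Z, h1, h2, h3⟩ h4

lemma CW.tc {v : E × Bool → V} {n : ℕ} {p : E → ℕ} (h : CW v n p) {e f : E}
    (hef : TC (fun e => v (e, false)) (fun e => v (e, true)) e f) : p e = p f := by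
  obtain ⟨ι, _, Z, -, h2, h3⟩ := h
  rw [← h3 e, ← h3 f]
  congr 1
  ext i
  rw [Finset.mem_filter, Finset.mem_filter, Sp_tc ((mem_Sp_iff v _).2 (h2 i)) hef]

end Pool.Agent.U389.FX
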